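import Pool.Agent.Lib.MP_e62723_gt.Asy.Defs

/-!
# JOB Dens: the density of the standard Gaussian measure, and the shift formula

`gam_eq`: by `Measure.ext_of_charFun`. The right-hand side `ν` is a finite measure
(`isFiniteMeasure_withDensity_ofReal`, integrability of the Gaussian:
`integrable_cexp_neg_mul_sq_norm_add` or `GaussianFourier.integrable...`; alternatively
`integral_rexp_neg_mul_sq_norm`), and
`charFun ν t = ∫ cexp(⟪x,t⟫ I) (2π)^{-n/2} e^{-‖x‖²/2} dx = e^{-‖t‖²/2}` by
`GaussianFourier.integral_cexp_neg_mul_sq_norm_add (hb : 0 < b.re) (c : ℂ) (w : V) :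
∫ v, cexp (-b * ‖v‖^2 + c * ⟪w, v⟫) = (π / b) ^ (finrank ℝ V / 2 : ℂ) * cexp (c ^ 2 * ‖w‖^2 / (4 * b))`
with `b = 1/2`, `c = I`; and `charFun_stdGaussian`.
`gam_ac`: `withDensity_absolutelyContinuous`.
`shift`: by `gam_eq` both integrals are Lebesgue integrals (`integral_withDensity_eq_integral_smul`
or `integral_withDensity_eq_integral_toReal_smul`), substitute `z ↦ z - a`
(`integral_add_right_eq_self` / `integral_sub_right_eq_self`):
`∫ φ(z + a) e^{-‖z‖²/2} dz = ∫ φ(z) e^{-‖z - a‖²/2} dz` and
`-‖z - a‖²/2 = -‖z‖²/2 + ⟪a,z⟫ - ‖a‖²/2` (`norm_sub_sq_real`). No integrability is needed.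
`integral_exp_inner`: `shift` with `φ = 1` (total mass one).
`integrable_exp_inner`: from `integral_exp_inner`, as the integral of a non-integrable function
would be `0 ≠ exp(..)` (`integral_undef`).
-/

open MeasureTheory ProbabilityTheory

namespace Pool.Agent.Lib.MP_e62723_gt.Asy

variable {n : ℕ}

/-- The density of the standard Gaussian measure. -/
private noncomputable def den (n : ℕ) (x : E n) : ℝ :=
  (2 * Real.pi) ^ (-((n : ℝ) / 2)) * Real.exp (-(‖x‖ ^ 2 / 2))

private theorem den_pos (n : ℕ) (x : E n) : 0 < den n x :=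
  mul_pos (Real.rpow_pos_of_pos (by positivity) _) (Real.exp_pos _)

private theorem den_meas (n : ℕ) : Measurable (den n) := by
  unfold den
  fun_prop

private theorem den_integrable (n : ℕ) : Integrable (den n) (volume : Measure (E n)) := by
  have h1 := GaussianFourier.integrable_cexp_neg_mul_sq_norm_add (V := E n) (b := 1 / 2)
    (by norm_num) 0 0
  have h2 := h1.norm
  unfold den
  refine Integrable.const_mul ?_ _
  refine h2.congr (Filter.Eventually.of_forall fun x => ?_)
  simp only [zero_mul, add_zero]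
  rw [Complex.norm_exp]
  congr 1
  have h3 : (-(1 / 2) * (‖x‖ : ℂ) ^ 2) = ((-(‖x‖ ^ 2 / 2) : ℝ) : ℂ) := by
    push_cast
    ring
  rw [h3, Complex.ofReal_re]

private theorem charFun_den (n : ℕ) (t : E n) :
    ∫ x : E n, (den n x : ℂ) * Complex.exp ((inner ℝ x t : ℝ) * Complex.I) =
      Complex.exp (-(‖t‖ : ℂ) ^ 2 / 2) := by
  have h1 := GaussianFourier.integral_cexp_neg_mul_sq_norm_add (V := E n) (b := 1 / 2)
    (by norm_num) Complex.I t
  have h2 : ∀ x : E n, (den n x : ℂ) * Complex.exp ((inner ℝ x t : ℝ) * Complex.I) =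
      (((2 * Real.pi) ^ (-((n : ℝ) / 2)) : ℝ) : ℂ) *
        Complex.exp (-(1 / 2) * (‖x‖ : ℂ) ^ 2 + Complex.I * (inner ℝ t x : ℝ)) := by
    intro x
    unfold den
    rw [Complex.ofReal_mul, mul_assoc, Complex.ofReal_exp, ← Complex.exp_add, real_inner_comm]
    congr 2
    push_cast
    ring
  rw [integral_congr_ae (Filter.Eventually.of_forall h2), integral_const_mul, h1]
  have h3 : (Real.pi : ℂ) / (1 / 2) = ((2 * Real.pi : ℝ) : ℂ) := by
    push_cast
    ring
  have h4 : ((Module.finrank ℝ (E n) : ℂ) / 2) = (((n : ℝ) / 2 : ℝ) : ℂ) := by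
    rw [finrank_euclideanSpace_fin]
    push_cast
    ring
  have hpi : (0 : ℝ) < 2 * Real.pi := by positivity
  rw [h3, h4, ← Complex.ofReal_cpow hpi.le, ← mul_assoc, ← Complex.ofReal_mul,
    ← Real.rpow_add hpi, neg_add_cancel, Real.rpow_zero, Complex.ofReal_one, one_mul,
    Complex.I_sq]
  congr 1
  ring

theorem gam_eq (n : ℕ) : gam n = (volume : Measure (E n)).withDensity
    (fun x => ENNReal.ofReal ((2 * Real.pi) ^ (-((n : ℝ) / 2)) * Real.exp (-(‖x‖ ^ 2 / 2)))) := by
  change gam n = (volume : Measure (E n)).withDensity (fun x => ENNReal.ofReal (den n x))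
  have hfin : IsFiniteMeasure
      ((volume : Measure (E n)).withDensity (fun x => ENNReal.ofReal (den n x))) :=
    isFiniteMeasure_withDensity_ofReal (den_integrable n).hasFiniteIntegral
  refine Measure.ext_of_charFun ?_
  funext t
  rw [charFun_stdGaussian, charFun_apply,
    integral_withDensity_eq_integral_toReal_smul (den_meas n).ennreal_ofReal
      (Filter.Eventually.of_forall fun x => ENNReal.ofReal_lt_top), ← charFun_den]
  refine integral_congr_ae (Filter.Eventually.of_forall fun x => ?_)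
  simp only [ENNReal.toReal_ofReal (den_pos n x).le, Complex.real_smul]

theorem gam_ac (n : ℕ) : gam n ≪ (volume : Measure (E n)) := by
  rw [gam_eq]
  exact withDensity_absolutelyContinuous _ _

private theorem integral_gam (φ : E n → ℝ) :
    ∫ z, φ z ∂(gam n) = ∫ z : E n, den n z * φ z := by
  rw [gam_eq]
  change ∫ z, φ z ∂((volume : Measure (E n)).withDensity (fun x => ENNReal.ofReal (den n x))) = _
  rw [integral_withDensity_eq_integral_toReal_smul (den_meas n).ennreal_ofReal
      (Filter.Eventually.of_forall fun x => ENNReal.ofReal_lt_top)]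
  refine integral_congr_ae (Filter.Eventually.of_forall fun x => ?_)
  simp only [ENNReal.toReal_ofReal (den_pos n x).le, smul_eq_mul]

theorem shift (φ : E n → ℝ) (a : E n) :
    ∫ z, φ (z + a) ∂(gam n) =
      ∫ z, φ z * Real.exp (inner ℝ a z - ‖a‖ ^ 2 / 2) ∂(gam n) := by
  rw [integral_gam, integral_gam]
  rw [← integral_add_right_eq_self (fun z : E n =>
    den n z * (φ z * Real.exp (inner ℝ a z - ‖a‖ ^ 2 / 2))) a]
  refine integral_congr_ae (Filter.Eventually.of_forall fun z => ?_)
  have h1 : den n (z + a) * Real.exp (inner ℝ a (z + a) - ‖a‖ ^ 2 / 2) = den n z := by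
    unfold den
    rw [mul_assoc, ← Real.exp_add]
    congr 2
    rw [norm_add_sq_real, inner_add_right, real_inner_self_eq_norm_sq, real_inner_comm]
    ring
  change den n z * φ (z + a) =
    den n (z + a) * (φ (z + a) * Real.exp (inner ℝ a (z + a) - ‖a‖ ^ 2 / 2))
  rw [← h1]
  ring

theorem integral_exp_inner (a : E n) :
    ∫ z, Real.exp (inner ℝ a z) ∂(gam n) = Real.exp (‖a‖ ^ 2 / 2) := by
  have h1 := shift (n := n) (fun _ => 1) a
  simp only [one_mul] at h1
  rw [integral_const, probReal_univ, one_smul] at h1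
  have h2 : ∀ z : E n, Real.exp (inner ℝ a z) =
      Real.exp (‖a‖ ^ 2 / 2) * Real.exp (inner ℝ a z - ‖a‖ ^ 2 / 2) := by
    intro z
    rw [← Real.exp_add]
    congr 1
    ring
  rw [integral_congr_ae (Filter.Eventually.of_forall h2), integral_const_mul, ← h1, mul_one]

theorem integrable_exp_inner (a : E n) :
    Integrable (fun z => Real.exp (inner ℝ a z)) (gam n) := by
  by_contra h
  have h1 := integral_exp_inner a
  rw [integral_undef h] at h1
  exact (Real.exp_pos _).ne h1

end Pool.Agent.Lib.MP_e62723_gt.Asy
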