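import Pool.Agent.Lib.MP_e62723_gt.Asy.Psi
import Pool.Agent.Lib.MP_e62723_gt.Asy.Dens

/-!
# The centre

`ae_gauss`: the map `g ↦ p + τ • g` pulls Lebesgue null sets back to Lebesgue null sets
(`(Measure.quasiMeasurePreserving_smul ..)`, translation: `measurePreserving_add_left`; or
`Measure.addHaar_preimage_smul`), and `gam n ≪ volume` (`gam_ac`).
`exists_center`: let `Φ(p) = ‖p‖²/2 + ∫ ψ(p + τ g) dγ(g)`, `ψ = psi K`, `R` a bound for the norm on `K`.
`ψ` is `R`-Lipschitz (`psi_lip`), so `g ↦ ψ(p + τ g)` is continuous and bounded by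
`|ψ(0)| + R‖p‖ + R τ ‖g‖`, hence integrable (`IsGaussian.integrable_id`), and `Φ` is continuous.
Coercivity: with a fixed `x₀ ∈ K`, `ψ(y) ≥ ‖x₀‖²/2 - ⟪x₀,y⟫` (`le_psi`), so
`Φ(p) ≥ ‖p‖²/2 + ‖x₀‖²/2 - ⟪x₀,p⟫ - τ ∫⟪x₀,g⟫ dγ = ‖p - x₀‖²/2` (`∫ ⟪x₀, g⟫ dγ = 0`,
`integral_strongDual_stdGaussian`), which tends to infinity at infinity. So `Φ` has a minimum
at some `p` (`Continuous.exists_forall_le`, `tendsto_norm_cocompact_atTop`).
Derivative: by `hasFDerivAt_integral_of_dominated_loc_of_lip` (bound: the constant `R`; for almost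
every `g` the function `p' ↦ ψ(p' + τ g)` is differentiable at `p`, by `ae_gauss`, with derivative
`fderiv ℝ ψ (p + τ g) = -⟪far K (p + τ g), ·⟫`), `Φ` has derivative
`v ↦ ⟪p, v⟫ - ⟪∫ far K (p + τ g) dγ, v⟫` at `p`; it vanishes at the minimum
(`IsLocalMin.hasFDerivAt_eq_zero`), hence `p = ∫ far K (p + τ g) dγ(g)`
(`ext_inner_right`, `integral_inner`).
-/

open MeasureTheory ProbabilityTheory Set Filter

namespace Pool.Agent.Lib.MP_e62723_gt.Asy

variable {n : ℕ} {K : Set (E n)}

theorem ae_gauss (hK : IsCompact K) (hne : K.Nonempty) (p : E n) {τ : ℝ} (hτ : 0 < τ) :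
    ∀ᵐ g ∂(gam n), DifferentiableAt ℝ (psi K) (p + τ • g) := by
  have h1 := ae_differentiableAt hK hne
  have hq1 : Measure.QuasiMeasurePreserving (fun g : E n => τ • g) volume volume := by
    refine ⟨by fun_prop, ?_⟩
    rw [Measure.map_addHaar_smul _ hτ.ne']
    exact Measure.smul_absolutelyContinuous
  have hq2 : Measure.QuasiMeasurePreserving (fun g : E n => p + g) volume volume :=
    (measurePreserving_add_left (volume : Measure (E n)) p).quasiMeasurePreserving
  have h2 : ∀ᵐ g ∂(volume : Measure (E n)), DifferentiableAt ℝ (psi K) (p + τ • g) :=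
    (hq2.comp hq1).ae h1
  exact (gam_ac n).ae_le h2

private theorem Center_bdd (hK : IsCompact K) : ∃ R : ℝ, 0 ≤ R ∧ ∀ x ∈ K, ‖x‖ ≤ R := by
  obtain ⟨R, hR⟩ := hK.isBounded.exists_norm_le
  exact ⟨max R 0, le_max_right _ _, fun x hx => (hR x hx).trans (le_max_left _ _)⟩

private theorem Center_cont (hK : IsCompact K) (hne : K.Nonempty) : Continuous (psi K) := by
  obtain ⟨R, hR0, hR⟩ := Center_bdd hK
  have : LipschitzWith ⟨R, hR0⟩ (psi K) := by
    apply LipschitzWith.of_dist_le_mul
    intro x y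
    rw [Real.dist_eq, dist_eq_norm]
    exact psi_lip hK hne hR x y
  exact this.continuous

private theorem Center_int (hK : IsCompact K) (hne : K.Nonempty) (p : E n) (τ : ℝ) :
    Integrable (fun g => psi K (p + τ • g)) (gam n) := by
  obtain ⟨R, hR0, hR⟩ := Center_bdd hK
  have hid : Integrable (fun g : E n => g) (gam n) := IsGaussian.integrable_id
  have hb : Integrable (fun g : E n => |psi K 0| + R * ‖p‖ + R * |τ| * ‖g‖) (gam n) :=
    (integrable_const _).add (hid.norm.const_mul _)
  refine hb.mono' ?_ (Filter.Eventually.of_forall fun g => ?_)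
  · have hc := Center_cont hK hne
    exact (hc.comp (by fun_prop : Continuous fun g : E n => p + τ • g)).aestronglyMeasurable
  · have h1 := psi_lip hK hne hR (p + τ • g) 0
    have h2 : ‖p + τ • g - 0‖ ≤ ‖p‖ + |τ| * ‖g‖ := by
      rw [sub_zero]
      refine (norm_add_le _ _).trans ?_
      rw [norm_smul, Real.norm_eq_abs]
    have h3 : |psi K (p + τ • g)| ≤ |psi K 0| + |psi K (p + τ • g) - psi K 0| := by
      have := abs_add_le (psi K 0) (psi K (p + τ • g) - psi K 0)
      rwa [add_sub_cancel] at this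
    rw [Real.norm_eq_abs]
    have h4 := mul_le_mul_of_nonneg_left h2 hR0
    nlinarith

theorem exists_center (hK : IsCompact K) (hne : K.Nonempty) {τ : ℝ} (hτ : 0 < τ) :
    ∃ p : E n, ∫ g, far K (p + τ • g) ∂(gam n) = p := by
  obtain ⟨R, hR0, hR⟩ := Center_bdd hK
  set Φ : E n → ℝ := fun p => ‖p‖ ^ 2 / 2 + ∫ g, psi K (p + τ • g) ∂(gam n) with hΦ
  -- Lipschitz bound of the integral
  have hlip : ∀ p p' : E n, |(∫ g, psi K (p + τ • g) ∂(gam n)) -
      ∫ g, psi K (p' + τ • g) ∂(gam n)| ≤ R * ‖p - p'‖ := by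
    intro p p'
    rw [← integral_sub (Center_int hK hne p τ) (Center_int hK hne p' τ), ← Real.norm_eq_abs]
    refine (norm_integral_le_of_norm_le_const (C := R * ‖p - p'‖)
      (Filter.Eventually.of_forall fun g => ?_)).trans (by simp)
    rw [Real.norm_eq_abs]
    have := psi_lip hK hne hR (p + τ • g) (p' + τ • g)
    rwa [add_sub_add_right_eq_sub] at this
  have hcontI : Continuous fun p : E n => ∫ g, psi K (p + τ • g) ∂(gam n) := by
    have : LipschitzWith ⟨R, hR0⟩ fun p : E n => ∫ g, psi K (p + τ • g) ∂(gam n) := by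
      apply LipschitzWith.of_dist_le_mul
      intro x y
      rw [Real.dist_eq, dist_eq_norm]
      exact hlip x y
    exact this.continuous
  have hcont : Continuous Φ := by
    rw [hΦ]
    exact ((continuous_norm.pow 2).div_const 2).add hcontI
  -- coercivity
  obtain ⟨x₀, hx₀⟩ := hne
  have hlow : ∀ p : E n, ‖p - x₀‖ ^ 2 / 2 ≤ Φ p := by
    intro p
    have hi0 : Integrable (fun g : E n => inner ℝ x₀ g) (gam n) :=
      (IsGaussian.integrable_id (μ := gam n)).const_inner x₀
    have hz : ∫ g : E n, inner ℝ x₀ g ∂(gam n) = 0 := by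
      have := integral_strongDual_stdGaussian (E := E n) (innerSL ℝ x₀)
      simpa using this
    have h1 : ∫ g, (‖x₀‖ ^ 2 / 2 - inner ℝ x₀ p - τ * inner ℝ x₀ g) ∂(gam n) ≤
        ∫ g, psi K (p + τ • g) ∂(gam n) := by
      apply integral_mono ((integrable_const _).sub (hi0.const_mul τ))
        (Center_int hK ⟨x₀, hx₀⟩ p τ)
      intro g
      have := le_psi hK hx₀ (p + τ • g)
      rw [inner_add_right, inner_smul_right] at this
      change ‖x₀‖ ^ 2 / 2 - inner ℝ x₀ p - τ * inner ℝ x₀ g ≤ psi K (p + τ • g)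
      linarith
    rw [integral_sub (integrable_const _) (hi0.const_mul τ), integral_const_mul, hz] at h1
    simp only [integral_const, probReal_univ, one_smul, mul_zero, sub_zero] at h1
    rw [hΦ]
    simp only
    rw [norm_sub_sq_real, real_inner_comm]
    linarith
  have hlim : Tendsto Φ (cocompact (E n)) atTop := by
    apply tendsto_atTop_mono hlow
    have h1 : Tendsto (fun p : E n => ‖p‖ - ‖x₀‖) (cocompact (E n)) atTop :=
      tendsto_atTop_add_const_right _ _ (tendsto_norm_cocompact_atTop)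
    have h2 : Tendsto (fun p : E n => ‖p - x₀‖) (cocompact (E n)) atTop :=
      tendsto_atTop_mono (fun p => norm_sub_norm_le p x₀) h1
    have h3 : Tendsto (fun r : ℝ => r ^ 2 / 2) atTop atTop :=
      (tendsto_pow_atTop two_ne_zero).atTop_div_const two_pos
    exact h3.comp h2
  obtain ⟨p, hp⟩ := hcont.exists_forall_le hlim
  refine ⟨p, ?_⟩
  have hne : K.Nonempty := ⟨x₀, hx₀⟩
  -- derivative
  have hfd : ∀ y : E n, fderiv ℝ (psi K) y = -(InnerProductSpace.toDual ℝ (E n)) (far K y) := by
    intro y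
    unfold far
    simp
  have hmeas : Measurable (fun g : E n => far K (p + τ • g)) :=
    (far_measurable K).comp (by fun_prop)
  have hint : Integrable (fun g : E n => far K (p + τ • g)) (gam n) :=
    Integrable.of_bound hmeas.aestronglyMeasurable R
      (Filter.Eventually.of_forall fun g => norm_far_le hK hne hR _)
  have hder := hasFDerivAt_integral_of_dominated_loc_of_lip' (𝕜 := ℝ) (μ := gam n)
    (F := fun (p' : E n) (g : E n) => psi K (p' + τ • g)) (x₀ := p) (s := Set.univ)
    (F' := fun g => -(InnerProductSpace.toDual ℝ (E n)) (far K (p + τ • g)))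
    (bound := fun _ => R) Filter.univ_mem
    (fun p' _ => (Center_int hK hne p' τ).aestronglyMeasurable) (Center_int hK hne p τ)
    (((InnerProductSpace.toDual ℝ (E n)).continuous.comp_aestronglyMeasurable
      hmeas.aestronglyMeasurable).neg)
    (Filter.Eventually.of_forall fun g p' _ => by
      rw [Real.norm_eq_abs]
      have := psi_lip hK hne hR (p' + τ • g) (p + τ • g)
      rwa [add_sub_add_right_eq_sub] at this)
    (integrable_const _) (by
      filter_upwards [ae_gauss hK hne p hτ] with g hg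
      have h1 : HasFDerivAt (psi K) (-(InnerProductSpace.toDual ℝ (E n)) (far K (p + τ • g)))
          (p + τ • g) := by
        rw [← hfd]
        exact hg.hasFDerivAt
      exact (hasFDerivAt_comp_add_right (τ • g)).2 h1)
  have hn2 : HasFDerivAt (fun p' : E n => ‖p'‖ ^ 2 / 2)
      ((InnerProductSpace.toDual ℝ (E n)) p) p := by
    have h1 := (hasStrictFDerivAt_norm_sq (F := E n) p).hasFDerivAt
    have h2 := h1.const_mul (1 / 2 : ℝ)
    have e1 : (fun p' : E n => ‖p'‖ ^ 2 / 2) = fun p' : E n => (1 / 2 : ℝ) * ‖p'‖ ^ 2 := by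
      funext p'
      ring
    rw [e1]
    refine h2.congr_fderiv ?_
    ext v
    simp
  have hmin : IsLocalMin Φ p := Filter.Eventually.of_forall hp
  have hzero := hmin.hasFDerivAt_eq_zero (hn2.add hder.2)
  have hI : ∫ g, -(InnerProductSpace.toDual ℝ (E n)) (far K (p + τ • g)) ∂(gam n) =
      -(InnerProductSpace.toDual ℝ (E n)) (∫ g, far K (p + τ • g) ∂(gam n)) := by
    rw [integral_neg]
    congr 1
    exact (InnerProductSpace.toDual ℝ (E n)).toContinuousLinearEquiv.toContinuousLinearMap.integral_comp_comm hint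
  rw [hI] at hzero
  have h3 : (InnerProductSpace.toDual ℝ (E n)) p =
      (InnerProductSpace.toDual ℝ (E n)) (∫ g, far K (p + τ • g) ∂(gam n)) := by
    rwa [← sub_eq_add_neg, sub_eq_zero] at hzero
  exact ((InnerProductSpace.toDual ℝ (E n)).injective h3).symm

end Pool.Agent.Lib.MP_e62723_gt.Asy
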