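import Pool.Agent.Lib.MP_e62723_gt.Asy.Key
import Pool.Agent.Lib.MP_e62723_gt.Asy.Center

/-!
# JOB Comb: a fixed proportion of a sphere lies in `K`

Let `τ = t/√n`, `p` from `exists_center`, `X(g) = far K (p + τ • g) - p`; `X` is measurable, bounded
(by `R + ‖p‖`, `norm_far_le`) and `∫ X = 0`. Put `S = ∫ ‖X‖²`, `A = ∫ ⟪X(g), g⟫`, `s = √(1-ρ²)`.
(1) For almost all `(g,z)` with respect to `γ ⊗ γ`, both `g` and `-ρ g + s z` are points where
`psi K` is differentiable at `p + τ ·` (`ae_gauss`; for the second one: its law is `γ`, `map_lin`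
with `(-ρ)² + s² = 1`, `ae_of_ae_map`; for the first: `Measure.ae_of_ae_map` with
`Measure.map_fst_prod`), so `X(g), X(-ρ g + s z) ∈ K - p` and `‖X(g) - X(-ρg+sz)‖ ≤ 2`
(`norm_sub_le_two`). Integrating `‖X(g)‖² + ‖X(g')‖² - 2⟪X(g), X(g')⟫ ≤ 4` over `γ ⊗ γ` (all bounded
measurable), `2 S - 2 ∫ ⟪X(g), X(g')⟫ ≤ 4` (laws of `g` and `g'` are both `γ`), and by `key`
`S - 2 ≤ ρ² S - (ρ+ρ²) A²/n`, that is `S (1-ρ²) ≤ 2 - (ρ+ρ²) A²/n`.
(2) For almost every `g`, `F(g) := ‖p + τ g‖² + 2 ψ(p + τ g) = ‖far K (p+τg) - (p+τg)‖² =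
‖X(g) - τ g‖² = ‖X(g)‖² - 2τ⟪X(g),g⟫ + τ²‖g‖²` (`norm_far_sub_sq`). So, with `∫ ‖g‖² = n`
(sum of `integral_coord_mul`), `∫ F = S - 2 τ A + t²`. With `a = A/√n`:
`∫ F ≤ 2/(1-ρ²) - (ρ/(1-ρ)) a² - 2 t a + t² ≤ 2/(1-ρ²) + t² (1-ρ)/ρ + t² = 2/(1-ρ²) + t²/ρ`
(`(ρ+ρ²)/(1-ρ²) = ρ/(1-ρ)`, `-(ρ/(1-ρ)) a² - 2ta ≤ t² (1-ρ)/ρ`: complete the square).
(3) `F ≥ 0` is integrable; Markov (`mul_meas_ge_le_integral_of_nonneg`):
`4 γ{F ≥ 4} ≤ ∫ F`, and if `F(g) < 4` then `p + τ g ∈ K` (`mem_of_psi_le`), so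
`γ{p + τ g ∈ K} ≥ 1 - γ{F ≥ 4} ≥ 1 - (∫ F)/4`.
-/

open MeasureTheory ProbabilityTheory Set

namespace Pool.Agent.Lib.MP_e62723_gt.Asy

variable {n : ℕ} {K : Set (E n)}

private theorem Comb_nsq (g : E n) : ‖g‖ ^ 2 = ∑ j, g j * g j := by
  rw [EuclideanSpace.norm_sq_eq]
  apply Finset.sum_congr rfl
  intro j _
  rw [Real.norm_eq_abs, sq_abs, sq]

private theorem Comb_cm (j : Fin n) : Integrable (fun g : E n => g j * g j) (gam n) := by
  have h := (memLp_coord j).integrable_sq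
  simpa only [sq] using h

private theorem Comb_int (n : ℕ) : Integrable (fun g : E n => ‖g‖ ^ 2) (gam n) := by
  have h : (fun g : E n => ‖g‖ ^ 2) = fun g => ∑ j, g j * g j := funext fun g => Comb_nsq g
  rw [h]
  exact integrable_finsetSum _ fun j _ => Comb_cm j

theorem integral_norm_sq (n : ℕ) : ∫ g : E n, ‖g‖ ^ 2 ∂(gam n) = n := by
  have h : (fun g : E n => ‖g‖ ^ 2) = fun g => ∑ j, g j * g j := funext fun g => Comb_nsq g
  rw [h, integral_finsetSum _ fun j _ => Comb_cm j]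
  have h2 : ∀ j : Fin n, ∫ g : E n, g j * g j ∂(gam n) = 1 := by
    intro j
    rw [integral_coord_mul, if_pos rfl]
  rw [Finset.sum_congr rfl fun j _ => h2 j, Finset.sum_const, Finset.card_univ, Fintype.card_fin,
    nsmul_eq_mul, mul_one]

private theorem Comb_norm (n : ℕ) : Integrable (fun g : E n => ‖g‖) (gam n) := by
  have h2 : Integrable (fun g : E n => 1 + ‖g‖ ^ 2) (gam n) := (integrable_const 1).add (Comb_int n)
  refine h2.mono' measurable_norm.aestronglyMeasurable (Filter.Eventually.of_forall fun g => ?_)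
  rw [Real.norm_eq_abs, abs_of_nonneg (norm_nonneg _)]
  nlinarith [sq_nonneg (‖g‖ - 1), norm_nonneg g]

private theorem Comb_bdd (hK : IsConvexBody K) : ∃ R : ℝ, 0 ≤ R ∧ ∀ x ∈ K, ‖x‖ ≤ R := by
  obtain ⟨R, hR⟩ := hK.compact.isBounded.exists_norm_le
  exact ⟨|R|, abs_nonneg R, fun x hx => le_trans (hR x hx) (le_abs_self R)⟩

private theorem Comb_meas (K : Set (E n)) (τ : ℝ) (p : E n) :
    Measurable (fun g : E n => far K (p + τ • g) - p) :=
  ((far_measurable K).comp (measurable_const.add (measurable_id.const_smul τ))).sub_const p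

private theorem Comb_le (hK : IsConvexBody K) (τ : ℝ) (p : E n) :
    ∃ C : ℝ, 0 ≤ C ∧ ∀ g : E n, ‖far K (p + τ • g) - p‖ ≤ C := by
  obtain ⟨R, hR0, hR⟩ := Comb_bdd hK
  refine ⟨R + ‖p‖, add_nonneg hR0 (norm_nonneg _), fun g => ?_⟩
  refine le_trans (norm_sub_le _ _) ?_
  have := norm_far_le hK.compact (nonempty_of hK) hR (p + τ • g)
  linarith

private theorem Comb_bint {α : Type*} [MeasurableSpace α] {μ : Measure α} [IsFiniteMeasure μ]
    {f : α → ℝ} (hf : Measurable f) {C : ℝ} (hC : ∀ x, |f x| ≤ C) : Integrable f μ :=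
  Integrable.of_bound hf.aestronglyMeasurable C (Filter.Eventually.of_forall fun x => by
    rw [Real.norm_eq_abs]
    exact hC x)

/-- Step (1). -/
theorem second_moment (hn : 0 < n) (hK : IsConvexBody K) (hw : HasConstantWidth K 2) {ρ τ : ℝ}
    (h0 : 0 < ρ) (h1 : ρ < 1) (hτ : 0 < τ) {p : E n}
    (hp : ∫ g, far K (p + τ • g) ∂(gam n) = p) :
    (∫ g, ‖far K (p + τ • g) - p‖ ^ 2 ∂(gam n)) * (1 - ρ ^ 2) ≤
      2 - (ρ + ρ ^ 2) * ((∫ g, inner ℝ (far K (p + τ • g) - p) g ∂(gam n)) ^ 2 / n) := by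
  obtain ⟨C, hC0, hC⟩ := Comb_le hK τ p
  have hne := nonempty_of hK
  obtain ⟨X, hXe⟩ : ∃ X : E n → E n, X = fun g => far K (p + τ • g) - p := ⟨_, rfl⟩
  have hXm : Measurable X := by
    rw [hXe]
    exact Comb_meas K τ p
  have hXC : ∀ g, ‖X g‖ ≤ C := by
    intro g
    rw [hXe]
    exact hC g
  have hmean : ∫ g, X g ∂(gam n) = 0 := by
    have h2 : Integrable (fun g => far K (p + τ • g)) (gam n) := by
      have h3 : Integrable X (gam n) := Integrable.of_bound hXm.aestronglyMeasurable C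
        (Filter.Eventually.of_forall hXC)
      have h4 : (fun g => far K (p + τ • g)) = fun g => X g + p := by
        funext g
        rw [hXe]
        simp
      rw [h4]
      exact h3.add (integrable_const p)
    rw [hXe, integral_sub h2 (integrable_const p), hp]
    simp
  obtain ⟨s, hs⟩ : ∃ s : ℝ, s = √(1 - ρ ^ 2) := ⟨_, rfl⟩
  have hρ : (-ρ) ^ 2 + s ^ 2 = 1 := by
    rw [hs, Real.sq_sqrt (by nlinarith)]
    ring
  obtain ⟨L, hL⟩ : ∃ L : E n × E n → E n, L = fun q => -ρ • q.1 + s • q.2 := ⟨_, rfl⟩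
  have hLm : Measurable L := by
    rw [hL]
    exact (measurable_fst.const_smul (-ρ)).add (measurable_snd.const_smul s)
  have hmap : ((gam n).prod (gam n)).map L = gam n := by
    rw [hL]
    exact map_lin n hρ
  have hfst : ((gam n).prod (gam n)).map Prod.fst = gam n := by
    rw [Measure.map_fst_prod, measure_univ, one_smul]
  have hae := ae_gauss hK.compact hne p hτ
  have hae1 : ∀ᵐ q ∂((gam n).prod (gam n)), DifferentiableAt ℝ (psi K) (p + τ • q.1) := by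
    apply ae_of_ae_map (f := Prod.fst) (p := fun g => DifferentiableAt ℝ (psi K) (p + τ • g))
      measurable_fst.aemeasurable
    rw [hfst]
    exact hae
  have hae2 : ∀ᵐ q ∂((gam n).prod (gam n)), DifferentiableAt ℝ (psi K) (p + τ • L q) := by
    apply ae_of_ae_map (f := L) (p := fun g => DifferentiableAt ℝ (psi K) (p + τ • g))
      hLm.aemeasurable
    rw [hmap]
    exact hae
  have hsqm : Measurable (fun g => ‖X g‖ ^ 2) := hXm.norm.pow_const 2
  have hsqC : ∀ g, |‖X g‖ ^ 2| ≤ C ^ 2 := by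
    intro g
    rw [abs_of_nonneg (sq_nonneg _)]
    exact pow_le_pow_left₀ (norm_nonneg _) (hXC g) 2
  have hi1 : Integrable (fun q : E n × E n => ‖X q.1‖ ^ 2) ((gam n).prod (gam n)) :=
    Comb_bint (hsqm.comp measurable_fst) fun q => hsqC q.1
  have hi2 : Integrable (fun q : E n × E n => ‖X (L q)‖ ^ 2) ((gam n).prod (gam n)) :=
    Comb_bint (hsqm.comp hLm) fun q => hsqC (L q)
  have hi3 : Integrable (fun q : E n × E n => inner ℝ (X q.1) (X (L q))) ((gam n).prod (gam n)) := by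
    refine Comb_bint (C := C * C) ((hXm.comp measurable_fst).inner (hXm.comp hLm)) fun q => ?_
    refine le_trans (abs_real_inner_le_norm _ _) ?_
    exact mul_le_mul (hXC _) (hXC _) (norm_nonneg _) hC0
  have he1 : ∫ q : E n × E n, ‖X q.1‖ ^ 2 ∂((gam n).prod (gam n)) = ∫ g, ‖X g‖ ^ 2 ∂(gam n) := by
    conv_rhs => rw [← hfst]
    rw [integral_map measurable_fst.aemeasurable hsqm.aestronglyMeasurable]
  have he2 : ∫ q : E n × E n, ‖X (L q)‖ ^ 2 ∂((gam n).prod (gam n)) = ∫ g, ‖X g‖ ^ 2 ∂(gam n) := by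
    conv_rhs => rw [← hmap]
    rw [integral_map hLm.aemeasurable hsqm.aestronglyMeasurable]
  have hle : ∫ q : E n × E n, (‖X q.1‖ ^ 2 + ‖X (L q)‖ ^ 2 - 2 * inner ℝ (X q.1) (X (L q)))
      ∂((gam n).prod (gam n)) ≤ 4 := by
    have h5 : ∫ _q : E n × E n, (4 : ℝ) ∂((gam n).prod (gam n)) = 4 := by simp
    rw [← h5]
    refine integral_mono_ae ((hi1.add hi2).sub (hi3.const_mul 2)) (integrable_const _) ?_
    filter_upwards [hae1, hae2] with q hq1 hq2
    have h6 := (far_spec hK.compact hne hq1).1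
    have h7 := (far_spec hK.compact hne hq2).1
    have h8 := norm_sub_le_two hK hw h6 h7
    have h9 : X q.1 - X (L q) = far K (p + τ • q.1) - far K (p + τ • L q) := by
      rw [hXe]
      simp
    have h10 : ‖X q.1 - X (L q)‖ ^ 2 ≤ 4 := by
      rw [h9]
      nlinarith [norm_nonneg (far K (p + τ • q.1) - far K (p + τ • L q))]
    rw [norm_sub_sq_real] at h10
    linarith
  have hi12 : Integrable (fun q : E n × E n => ‖X q.1‖ ^ 2 + ‖X (L q)‖ ^ 2)
      ((gam n).prod (gam n)) := hi1.add hi2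
  rw [integral_sub hi12 (hi3.const_mul 2), integral_add hi1 hi2, he1, he2,
    integral_const_mul] at hle
  have hkey := key hn h0 h1 hXm hXC hmean
  have h11 : (fun q : E n × E n => inner ℝ (X q.1) (X (-ρ • q.1 + √(1 - ρ ^ 2) • q.2))) =
      fun q => inner ℝ (X q.1) (X (L q)) := by
    rw [hL, hs]
  rw [h11] at hkey
  have h12 : ∫ g, ‖far K (p + τ • g) - p‖ ^ 2 ∂(gam n) = ∫ g, ‖X g‖ ^ 2 ∂(gam n) := by rw [hXe]
  have h13 : ∫ g, inner ℝ (far K (p + τ • g) - p) g ∂(gam n) = ∫ g, inner ℝ (X g) g ∂(gam n) := by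
    rw [hXe]
  rw [h12, h13]
  nlinarith

/-- Step (2). -/
theorem far_moment (hn : 0 < n) (hK : IsConvexBody K) (hw : HasConstantWidth K 2) {ρ t : ℝ}
    (h0 : 0 < ρ) (h1 : ρ < 1) (ht : 0 < t) {p : E n}
    (hp : ∫ g, far K (p + (t / √n) • g) ∂(gam n) = p) :
    Integrable (fun g => ‖p + (t / √n) • g‖ ^ 2 + 2 * psi K (p + (t / √n) • g)) (gam n) ∧
    ∫ g, (‖p + (t / √n) • g‖ ^ 2 + 2 * psi K (p + (t / √n) • g)) ∂(gam n) ≤
      2 / (1 - ρ ^ 2) + t ^ 2 / ρ := by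
  have hnR : (0 : ℝ) < n := by exact_mod_cast hn
  have hsn : 0 < √(n : ℝ) := Real.sqrt_pos.2 hnR
  have hne := nonempty_of hK
  obtain ⟨τ, hτe⟩ : ∃ τ : ℝ, τ = t / √n := ⟨_, rfl⟩
  have hτ : 0 < τ := by
    rw [hτe]
    positivity
  rw [← hτe] at hp ⊢
  have hsm := second_moment hn hK hw h0 h1 hτ hp
  obtain ⟨C, hC0, hC⟩ := Comb_le hK τ p
  obtain ⟨X, hXe⟩ : ∃ X : E n → E n, X = fun g => far K (p + τ • g) - p := ⟨_, rfl⟩
  have hXm : Measurable X := by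
    rw [hXe]
    exact Comb_meas K τ p
  have hXC : ∀ g, ‖X g‖ ≤ C := by
    intro g
    rw [hXe]
    exact hC g
  have h12 : ∫ g, ‖far K (p + τ • g) - p‖ ^ 2 ∂(gam n) = ∫ g, ‖X g‖ ^ 2 ∂(gam n) := by rw [hXe]
  have h13 : ∫ g, inner ℝ (far K (p + τ • g) - p) g ∂(gam n) = ∫ g, inner ℝ (X g) g ∂(gam n) := by
    rw [hXe]
  rw [h12, h13] at hsm
  obtain ⟨S, hS⟩ : ∃ S : ℝ, S = ∫ g, ‖X g‖ ^ 2 ∂(gam n) := ⟨_, rfl⟩
  obtain ⟨A, hA⟩ : ∃ A : ℝ, A = ∫ g, inner ℝ (X g) g ∂(gam n) := ⟨_, rfl⟩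
  rw [← hS, ← hA] at hsm
  have hi1 : Integrable (fun g => ‖X g‖ ^ 2) (gam n) := by
    refine Comb_bint (C := C ^ 2) (hXm.norm.pow_const 2) fun g => ?_
    rw [abs_of_nonneg (sq_nonneg _)]
    exact pow_le_pow_left₀ (norm_nonneg _) (hXC g) 2
  have hi2 : Integrable (fun g => inner ℝ (X g) g) (gam n) := by
    refine ((Comb_norm n).const_mul C).mono' (hXm.inner measurable_id).aestronglyMeasurable
      (Filter.Eventually.of_forall fun g => ?_)
    rw [Real.norm_eq_abs]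
    refine le_trans (abs_real_inner_le_norm _ _) ?_
    exact mul_le_mul_of_nonneg_right (hXC g) (norm_nonneg _)
  have hi3 := Comb_int n
  have hG : Integrable (fun g => ‖X g‖ ^ 2 - 2 * τ * inner ℝ (X g) g + τ ^ 2 * ‖g‖ ^ 2) (gam n) :=
    (hi1.sub (hi2.const_mul (2 * τ))).add (hi3.const_mul (τ ^ 2))
  have hae : (fun g => ‖p + τ • g‖ ^ 2 + 2 * psi K (p + τ • g)) =ᵐ[gam n]
      fun g => ‖X g‖ ^ 2 - 2 * τ * inner ℝ (X g) g + τ ^ 2 * ‖g‖ ^ 2 := by
    filter_upwards [ae_gauss hK.compact hne p hτ] with g hg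
    rw [← norm_far_sub_sq hK.compact hne hg]
    have h5 : far K (p + τ • g) - (p + τ • g) = X g - τ • g := by
      rw [hXe]
      simp only
      abel
    rw [h5, norm_sub_sq_real, real_inner_smul_right, norm_smul, mul_pow, Real.norm_eq_abs, sq_abs]
    ring
  refine ⟨hG.congr hae.symm, ?_⟩
  have hi12 : Integrable (fun g => ‖X g‖ ^ 2 - 2 * τ * inner ℝ (X g) g) (gam n) :=
    hi1.sub (hi2.const_mul (2 * τ))
  rw [integral_congr_ae hae, integral_add hi12 (hi3.const_mul (τ ^ 2)),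
    integral_sub hi1 (hi2.const_mul (2 * τ)), integral_const_mul, integral_const_mul,
    integral_norm_sq, ← hS, ← hA]
  obtain ⟨a, ha⟩ : ∃ a : ℝ, a = A / √n := ⟨_, rfl⟩
  have hsq : √(n : ℝ) ^ 2 = n := Real.sq_sqrt hnR.le
  have h6 : A ^ 2 / n = a ^ 2 := by
    rw [ha, div_pow, hsq]
  have h7 : τ * A = t * a := by
    rw [hτe, ha]
    field_simp
  have h8 : τ ^ 2 * n = t ^ 2 := by
    rw [hτe, div_pow, hsq]
    field_simp
  rw [h6] at hsm
  have hρ1 : 0 < 1 - ρ := by linarith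
  have hρ2 : 0 < 1 + ρ := by linarith
  have hρ3 : 1 - ρ ^ 2 = (1 - ρ) * (1 + ρ) := by ring
  have h9 : S ≤ 2 / (1 - ρ ^ 2) - ρ / (1 - ρ) * a ^ 2 := by
    have h10 : S ≤ (2 - (ρ + ρ ^ 2) * a ^ 2) / (1 - ρ ^ 2) := by
      rw [le_div_iff₀ (by rw [hρ3]; positivity)]
      exact hsm
    refine le_trans h10 (le_of_eq ?_)
    rw [hρ3]
    field_simp
  have h14 : -(ρ / (1 - ρ) * a ^ 2) - 2 * (t * a) + t ^ 2 ≤ t ^ 2 / ρ := by
    have h15 : 0 ≤ ρ / (1 - ρ) * (a + t * (1 - ρ) / ρ) ^ 2 := by positivity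
    have h16 : ρ / (1 - ρ) * (a + t * (1 - ρ) / ρ) ^ 2 =
        t ^ 2 / ρ - (-(ρ / (1 - ρ) * a ^ 2) - 2 * (t * a) + t ^ 2) := by
      field_simp
      ring
    linarith
  have h17 : 2 * τ * A = 2 * (t * a) := by
    rw [← h7]
    ring
  rw [h17, h8]
  linarith

theorem prob_ge (hn : 0 < n) (hK : IsConvexBody K) (hw : HasConstantWidth K 2) {ρ t : ℝ}
    (h0 : 0 < ρ) (h1 : ρ < 1) (ht : 0 < t) :
    ∃ p : E n, 1 - (2 / (1 - ρ ^ 2) + t ^ 2 / ρ) / 4 ≤
      (gam n).real {g | p + (t / √n) • g ∈ K} := by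
  have hnR : (0 : ℝ) < n := by exact_mod_cast hn
  have hne := nonempty_of hK
  have hτ : 0 < t / √(n : ℝ) := div_pos ht (Real.sqrt_pos.2 hnR)
  obtain ⟨p, hp⟩ := exists_center hK.compact hne hτ
  refine ⟨p, ?_⟩
  obtain ⟨hint, hle⟩ := far_moment hn hK hw h0 h1 ht hp
  have hnn : 0 ≤ᵐ[gam n] fun g => ‖p + (t / √n) • g‖ ^ 2 + 2 * psi K (p + (t / √n) • g) := by
    filter_upwards [ae_gauss hK.compact hne p hτ] with g hg
    rw [← norm_far_sub_sq hK.compact hne hg]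
    exact sq_nonneg _
  have hM := mul_meas_ge_le_integral_of_nonneg hnn hint 4
  have hmeas : MeasurableSet {g : E n | p + (t / √n) • g ∈ K} := by
    have hc : Continuous (fun g : E n => p + (t / √n) • g) := by fun_prop
    exact hc.measurable hK.compact.isClosed.measurableSet
  have hsub : {g : E n | p + (t / √n) • g ∈ K}ᶜ ⊆
      {g | 4 ≤ ‖p + (t / √n) • g‖ ^ 2 + 2 * psi K (p + (t / √n) • g)} := by
    intro g hg
    by_contra hlt
    apply hg
    exact mem_of_psi_le hK hw (not_le.1 hlt).le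
  have h3 : (gam n).real {g : E n | p + (t / √n) • g ∈ K}ᶜ ≤
      (gam n).real {g | 4 ≤ ‖p + (t / √n) • g‖ ^ 2 + 2 * psi K (p + (t / √n) • g)} :=
    measureReal_mono hsub
  rw [probReal_compl_eq_one_sub hmeas] at h3
  linarith

end Pool.Agent.Lib.MP_e62723_gt.Asy
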