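import Pool.Agent.Lib.MP_e62723_gt.Asy.Defs

/-!
# JOB Conc: the lower tail of `‖g‖²`

`integral_exp_neg_norm_sq`: for `λ > 0`,
`∫ e^{-λ‖g‖²} dγ = (∫ e^{-λ x²} dN(0,1))^n = ((1+2λ)^{-1/2})^n`, by
`map_pi_eq_stdGaussian : (Measure.pi (fun _ ↦ gaussianReal 0 1)).map (toLp 2) = stdGaussian
(EuclideanSpace ℝ ι)`, `EuclideanSpace.real_norm_sq_eq`, `Real.exp_sum`,
`integral_fintype_prod_eq_prod`, `integral_gaussianReal_eq_integral_smul`, `integral_gaussian`.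
(Or with `gam_eq`-like density; any proof.)
`tail_le`: Markov: `γ{‖g‖² ≤ (1-ε)n} ≤ e^{λ(1-ε)n} ∫ e^{-λ‖g‖²} = (e^{λ(1-ε)} (1+2λ)^{-1/2})^n`
(`mul_meas_ge_le_integral_of_nonneg` for `e^{-λ‖g‖²} ≥ e^{-λ(1-ε)n}`). With `λ = ε/2`,
`log(1+2λ) ≥ 2·2λ/(2λ+2) = 2λ/(1+λ) ≥ 2λ - 2λ²` (`Real.le_log_one_add_of_nonneg : 0 ≤ x →
2 * x / (x + 2) ≤ log (1 + x)`), so `λ(1-ε) - log(1+2λ)/2 ≤ -λε + λ² = -ε²/4`.
-/

open MeasureTheory ProbabilityTheory

namespace Pool.Agent.Lib.MP_e62723_gt.Asy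

private theorem Conc_one {l : ℝ} (hl : 0 < l) :
    ∫ x : ℝ, Real.exp (-(l * x ^ 2)) ∂(gaussianReal 0 1) = 1 / √(1 + 2 * l) := by
  rw [integral_gaussianReal_eq_integral_smul one_ne_zero]
  have h : ∀ x : ℝ, gaussianPDFReal 0 1 x • Real.exp (-(l * x ^ 2)) =
      (√(2 * Real.pi))⁻¹ * Real.exp (-(l + 1 / 2) * x ^ 2) := by
    intro x
    rw [gaussianPDFReal_def, smul_eq_mul]
    simp only [NNReal.coe_one, mul_one, sub_zero]
    rw [mul_assoc, ← Real.exp_add]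
    congr 2
    ring
  simp_rw [h]
  rw [integral_const_mul, integral_gaussian, ← Real.sqrt_inv, ← Real.sqrt_mul (by positivity),
    one_div (√(1 + 2 * l)), ← Real.sqrt_inv]
  congr 1
  have := Real.pi_pos
  field_simp
  ring

theorem integral_exp_neg_norm_sq (n : ℕ) {l : ℝ} (hl : 0 < l) :
    ∫ g : E n, Real.exp (-(l * ‖g‖ ^ 2)) ∂(gam n) = (1 / √(1 + 2 * l)) ^ n := by
  have h1 : Measurable (WithLp.toLp 2 : (Fin n → ℝ) → E n) := by fun_prop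
  have h2 : Continuous (fun g : E n => Real.exp (-(l * ‖g‖ ^ 2))) := by fun_prop
  have h3 : gam n = (Measure.pi (fun _ : Fin n => gaussianReal 0 1)).map
      (WithLp.toLp 2 : (Fin n → ℝ) → E n) := map_pi_eq_stdGaussian.symm
  rw [h3, integral_map h1.aemeasurable h2.aestronglyMeasurable]
  have h4 : ∀ x : Fin n → ℝ, Real.exp (-(l * ‖(WithLp.toLp 2 x : E n)‖ ^ 2)) =
      ∏ i, Real.exp (-(l * x i ^ 2)) := by
    intro x
    rw [EuclideanSpace.real_norm_sq_eq, ← Real.exp_sum, Finset.sum_neg_distrib, Finset.mul_sum]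
  simp_rw [h4]
  rw [integral_fintype_prod_eq_pow (fun x : ℝ => Real.exp (-(l * x ^ 2))), Conc_one hl,
    Fintype.card_fin]

theorem tail_le (n : ℕ) {ε : ℝ} (h0 : 0 < ε) (h1 : ε < 1) :
    (gam n).real {g : E n | ‖g‖ ^ 2 ≤ (1 - ε) * n} ≤ Real.exp (-(ε ^ 2 / 4)) ^ n := by
  have hl : 0 < ε / 2 := by linarith
  have hI := integral_exp_neg_norm_sq n hl
  have hint : Integrable (fun g : E n => Real.exp (-(ε / 2 * ‖g‖ ^ 2))) (gam n) := by
    have h2 : Continuous (fun g : E n => Real.exp (-(ε / 2 * ‖g‖ ^ 2))) := by fun_prop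
    refine Integrable.of_bound h2.aestronglyMeasurable 1 (Filter.Eventually.of_forall fun g => ?_)
    rw [Real.norm_eq_abs, Real.abs_exp, Real.exp_le_one_iff]
    have : 0 ≤ ε / 2 * ‖g‖ ^ 2 := by positivity
    linarith
  have hM := mul_meas_ge_le_integral_of_nonneg
    (Filter.Eventually.of_forall (fun g : E n => (Real.exp_pos (-(ε / 2 * ‖g‖ ^ 2))).le)) hint
    (Real.exp (-(ε / 2 * ((1 - ε) * n))))
  have hS : {g : E n | Real.exp (-(ε / 2 * ((1 - ε) * n))) ≤ Real.exp (-(ε / 2 * ‖g‖ ^ 2))} =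
      {g : E n | ‖g‖ ^ 2 ≤ (1 - ε) * n} := by
    ext g
    show Real.exp (-(ε / 2 * ((1 - ε) * n))) ≤ Real.exp (-(ε / 2 * ‖g‖ ^ 2)) ↔
      ‖g‖ ^ 2 ≤ (1 - ε) * n
    rw [Real.exp_le_exp, neg_le_neg_iff, mul_le_mul_iff_right₀ hl]
  rw [hS, hI] at hM
  have hq : 0 < √(1 + 2 * (ε / 2)) := Real.sqrt_pos.mpr (by linarith)
  have hlog := Real.le_log_one_add_of_nonneg (x := ε) h0.le
  have hsq : √(1 + 2 * (ε / 2)) = Real.exp (Real.log (1 + ε) / 2) := by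
    have h5 : 1 + 2 * (ε / 2) = Real.exp (Real.log (1 + ε) / 2) ^ 2 := by
      rw [← Real.exp_nat_mul]
      have h6 : ((2 : ℕ) : ℝ) * (Real.log (1 + ε) / 2) = Real.log (1 + ε) := by
        push_cast; ring
      rw [h6, Real.exp_log (by linarith)]
      ring
    rw [h5, Real.sqrt_sq (Real.exp_pos _).le]
  have hkey : ε / 2 * (1 - ε) - Real.log (1 + ε) / 2 ≤ -(ε ^ 2 / 4) := by
    have h7 : ε / 2 - ε ^ 2 / 4 ≤ ε / (ε + 2) := by
      rw [le_div_iff₀ (by linarith)]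
      nlinarith [sq_nonneg ε, mul_pos h0 (mul_pos h0 h0)]
    have h8 : 2 * ε / (ε + 2) = 2 * (ε / (ε + 2)) := by ring
    rw [h8] at hlog
    nlinarith
  have h9 : (gam n).real {g : E n | ‖g‖ ^ 2 ≤ (1 - ε) * n} ≤
      Real.exp (ε / 2 * ((1 - ε) * n)) * (1 / √(1 + 2 * (ε / 2))) ^ n := by
    rw [Real.exp_neg] at hM
    have h10 := Real.exp_pos (ε / 2 * ((1 - ε) * n))
    rw [inv_mul_le_iff₀ h10] at hM
    exact hM
  refine h9.trans ?_
  have h11 : Real.exp (ε / 2 * ((1 - ε) * n)) = Real.exp (ε / 2 * (1 - ε)) ^ n := by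
    rw [← Real.exp_nat_mul]
    congr 1
    ring
  rw [h11, ← mul_pow]
  refine pow_le_pow_left₀ (by positivity) ?_ n
  rw [hsq, one_div, ← Real.exp_neg, ← Real.exp_add]
  refine Real.exp_le_exp.mpr ?_
  linarith

end Pool.Agent.Lib.MP_e62723_gt.Asy
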