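import Pool.Agent.Lib.MP_e62723_gt.Asy.Noise

/-!
# JOB Coord: the coordinate functions

`integrable_coord`: `|x j| ≤ ‖x‖` and `IsGaussian.integrable_id` (or `memLp_two_id`).
`memLp_coord`: `IsGaussian.memLp_two_id` composed with the projection
(`EuclideanSpace.proj j`, or `MemLp.of_le` with `|x j| ≤ ‖x‖`).
`integral_coord`: `integral_strongDual_stdGaussian (EuclideanSpace.proj j)`.
`integral_coord_mul`: `covarianceBilin_stdGaussian : covarianceBilin (stdGaussian E) = innerSL ℝ`
applied to two coordinate vectors with `covarianceBilin_apply...`, or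
`stdGaussian (E n) = (Measure.pi (gaussianReal 0 1)).map (toLp 2)` (`map_pi_eq_stdGaussian`),
independence and `variance_id_gaussianReal`.
`bessel`: put `c j = ∫ f x_j`. Expanding, `0 ≤ ∫ (f - Σ_j c_j x_j)² = ∫ f² - 2 Σ c_j² + Σ c_j²`.
`T_coord`: as in `integral_mul_T`, but for the unbounded function `g = x_j`:
`∫ (T n a f) x_j = ∫∫ f(a x + s z) x_j dγ dγ` (Fubini; integrable because `f` is bounded and
`x_j` integrable) `= ∫∫ f(x) (a x + s z)_j` (`map_swap`: the law of `(a x + s z, x)` is the law
of `(x, a x + s z)`) `= a ∫ f x_j + s ∫∫ f(x) z_j = a ∫ f x_j` (`integral_prod_mul`,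
`integral_coord`).
-/

open MeasureTheory ProbabilityTheory

namespace Pool.Agent.Lib.MP_e62723_gt.Asy

variable {n : ℕ}

theorem memLp_coord (j : Fin n) : MemLp (fun x : E n => x j) 2 (gam n) := by
  have h1 : MemLp (id : E n → E n) 2 (gam n) := IsGaussian.memLp_two_id
  exact (EuclideanSpace.proj (𝕜 := ℝ) j : E n →L[ℝ] ℝ).comp_memLp' h1

theorem integrable_coord (j : Fin n) : Integrable (fun x : E n => x j) (gam n) :=
  (memLp_coord j).integrable (by norm_num)

theorem integral_coord (j : Fin n) : ∫ x : E n, x j ∂(gam n) = 0 :=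
  integral_strongDual_stdGaussian (EuclideanSpace.proj (𝕜 := ℝ) j : E n →L[ℝ] ℝ)

theorem integral_coord_mul (i j : Fin n) :
    ∫ x : E n, x i * x j ∂(gam n) = if i = j then 1 else 0 := by
  have h1 : MemLp (id : E n → E n) 2 (gam n) := IsGaussian.memLp_two_id
  have h2 := covarianceBilin_apply h1 (EuclideanSpace.basisFun (Fin n) ℝ i)
    (EuclideanSpace.basisFun (Fin n) ℝ j)
  have h0 : ∫ x, id x ∂(gam n) = (0 : E n) := integral_id_stdGaussian
  rw [h0, covarianceBilin_stdGaussian] at h2
  simp only [sub_zero, EuclideanSpace.basisFun_inner] at h2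
  rw [← h2, innerSL_apply_apply, OrthonormalBasis.inner_eq_ite]

private theorem coord_mul_int (i j : Fin n) :
    Integrable (fun x : E n => x i * x j) (gam n) :=
  (memLp_coord i).integrable_mul (memLp_coord j)

private theorem coord_bdd_int {C : ℝ} {f : E n → ℝ} (hf : Measurable f) (hC : ∀ x, |f x| ≤ C)
    (j : Fin n) : Integrable (fun x : E n => f x * x j) (gam n) :=
  (integrable_coord j).bdd_mul (c := C) hf.aestronglyMeasurable
    (Filter.Eventually.of_forall fun x => by rw [Real.norm_eq_abs]; exact hC x)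

theorem bessel {C : ℝ} {f : E n → ℝ} (hf : Measurable f) (hC : ∀ x, |f x| ≤ C) :
    ∑ j, (∫ x : E n, f x * x j ∂(gam n)) ^ 2 ≤ ∫ x, f x ^ 2 ∂(gam n) := by
  set c : Fin n → ℝ := fun j => ∫ x : E n, f x * x j ∂(gam n) with hc
  have hf2 : Integrable (fun x : E n => f x ^ 2) (gam n) := by
    refine Integrable.of_bound (hf.pow_const 2).aestronglyMeasurable (C ^ 2)
      (Filter.Eventually.of_forall fun x => ?_)
    rw [Real.norm_eq_abs, abs_pow]
    exact pow_le_pow_left₀ (abs_nonneg _) (hC x) 2
  have hfx : Integrable (fun x : E n => ∑ j, c j * (f x * x j)) (gam n) :=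
    integrable_finsetSum _ fun j _ => (coord_bdd_int hf hC j).const_mul _
  have hxx : Integrable (fun x : E n => ∑ i, ∑ j, c i * c j * (x i * x j)) (gam n) :=
    integrable_finsetSum _ fun i _ => integrable_finsetSum _ fun j _ =>
      (coord_mul_int i j).const_mul _
  have hsub : Integrable (fun x : E n => f x ^ 2 - 2 * ∑ j, c j * (f x * x j)) (gam n) :=
    hf2.sub (hfx.const_mul 2)
  have h1 : 0 ≤ ∫ x : E n, (f x - ∑ j, c j * x j) ^ 2 ∂(gam n) :=
    integral_nonneg fun x => sq_nonneg _
  have h2 : ∀ x : E n, (f x - ∑ j, c j * x j) ^ 2 =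
      f x ^ 2 - 2 * ∑ j, c j * (f x * x j) + ∑ i, ∑ j, c i * c j * (x i * x j) := by
    intro x
    have e1 : ∑ j, c j * (f x * x j) = f x * ∑ j, c j * x j := by
      rw [Finset.mul_sum]
      exact Finset.sum_congr rfl fun j _ => by ring
    have e2 : ∑ i, ∑ j, c i * c j * (x i * x j) = (∑ j, c j * x j) * ∑ j, c j * x j := by
      rw [Finset.sum_mul_sum]
      exact Finset.sum_congr rfl fun i _ => Finset.sum_congr rfl fun j _ => by ring
    rw [e1, e2]
    ring
  rw [integral_congr_ae (Filter.Eventually.of_forall h2),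
    integral_add hsub hxx, integral_sub hf2 (hfx.const_mul 2),
    integral_const_mul, integral_finsetSum _ (fun j _ => (coord_bdd_int hf hC j).const_mul _),
    integral_finsetSum _ (fun i _ => integrable_finsetSum _ fun j _ =>
      (coord_mul_int i j).const_mul _)] at h1
  have h3 : ∀ i : Fin n, ∫ x : E n, ∑ j, c i * c j * (x i * x j) ∂(gam n) = c i ^ 2 := by
    intro i
    rw [integral_finsetSum _ (fun j _ => (coord_mul_int i j).const_mul _)]
    simp only [integral_const_mul, integral_coord_mul, mul_ite, mul_one, mul_zero,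
      Finset.sum_ite_eq, Finset.mem_univ, if_true]
    ring
  have h4 : ∀ j : Fin n, ∫ x : E n, c j * (f x * x j) ∂(gam n) = c j ^ 2 := by
    intro j
    rw [integral_const_mul, sq]
  rw [Finset.sum_congr rfl (fun i _ => h3 i), Finset.sum_congr rfl (fun j _ => h4 j)] at h1
  linarith

theorem T_coord {a C : ℝ} (ha : a ^ 2 ≤ 1) {f : E n → ℝ} (hf : Measurable f)
    (hC : ∀ x, |f x| ≤ C) (j : Fin n) :
    ∫ x : E n, T n a f x * x j ∂(gam n) = a * ∫ x : E n, f x * x j ∂(gam n) := by
  have hs : a ^ 2 + √(1 - a ^ 2) ^ 2 = 1 := by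
    rw [Real.sq_sqrt (by linarith)]
    ring
  have hlin : Measurable (fun q : E n × E n => a • q.1 + √(1 - a ^ 2) • q.2) := by fun_prop
  have hcoord : Measurable (fun x : E n => x j) := by fun_prop
  have hint : Integrable
      (fun q : E n × E n => f (a • q.1 + √(1 - a ^ 2) • q.2) * q.1 j)
      ((gam n).prod (gam n)) :=
    ((integrable_coord j).comp_fst (gam n)).bdd_mul (c := C)
      (hf.comp hlin).aestronglyMeasurable
      (Filter.Eventually.of_forall fun x => by rw [Real.norm_eq_abs]; exact hC _)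
  have h1 : ∫ x : E n, T n a f x * x j ∂(gam n) =
      ∫ q : E n × E n, f (a • q.1 + √(1 - a ^ 2) • q.2) * q.1 j ∂((gam n).prod (gam n)) := by
    rw [integral_prod _ hint]
    refine integral_congr_ae (Filter.Eventually.of_forall fun x => ?_)
    change T n a f x * x j = ∫ z, f (a • x + √(1 - a ^ 2) • z) * x j ∂(gam n)
    rw [integral_mul_const]
    rfl
  have hΦ : Measurable (fun q : E n × E n => f q.1 * q.2 j) :=
    (hf.comp measurable_fst).mul (hcoord.comp measurable_snd)
  have hm1 : Measurable (fun q : E n × E n => (a • q.1 + √(1 - a ^ 2) • q.2, q.1)) :=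
    hlin.prodMk measurable_fst
  have hm2 : Measurable (fun q : E n × E n => (q.1, a • q.1 + √(1 - a ^ 2) • q.2)) :=
    measurable_fst.prodMk hlin
  have h2 := map_swap n hs
  have h3 : ∫ q : E n × E n, f (a • q.1 + √(1 - a ^ 2) • q.2) * q.1 j ∂((gam n).prod (gam n)) =
      ∫ q : E n × E n, f q.1 * (a • q.1 + √(1 - a ^ 2) • q.2) j ∂((gam n).prod (gam n)) := by
    have e1 := integral_map (μ := (gam n).prod (gam n)) hm1.aemeasurable
      (f := fun q : E n × E n => f q.1 * q.2 j) hΦ.aestronglyMeasurable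
    have e2 := integral_map (μ := (gam n).prod (gam n)) hm2.aemeasurable
      (f := fun q : E n × E n => f q.1 * q.2 j) hΦ.aestronglyMeasurable
    rw [h2] at e1
    exact e1.symm.trans e2
  have hi1 : Integrable (fun q : E n × E n => f q.1 * q.1 j) ((gam n).prod (gam n)) :=
    (coord_bdd_int hf hC j).comp_fst (gam n)
  have hi2 : Integrable (fun q : E n × E n => f q.1 * q.2 j) ((gam n).prod (gam n)) :=
    ((integrable_coord j).comp_snd (gam n)).bdd_mul (c := C)
      (hf.comp measurable_fst).aestronglyMeasurable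
      (Filter.Eventually.of_forall fun x => by rw [Real.norm_eq_abs]; exact hC _)
  have h4 : ∀ q : E n × E n, f q.1 * (a • q.1 + √(1 - a ^ 2) • q.2) j =
      a * (f q.1 * q.1 j) + √(1 - a ^ 2) * (f q.1 * q.2 j) := by
    intro q
    simp only [PiLp.add_apply, PiLp.smul_apply, smul_eq_mul]
    ring
  rw [h1, h3, integral_congr_ae (Filter.Eventually.of_forall h4),
    integral_add (hi1.const_mul a) (hi2.const_mul _), integral_const_mul, integral_const_mul,
    integral_prod_mul f (fun x : E n => x j), integral_coord, mul_zero, mul_zero, add_zero,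
    integral_prod _ hi1]
  simp only [integral_const, probReal_univ, one_smul]

end Pool.Agent.Lib.MP_e62723_gt.Asy
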