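import Pool.Agent.Lib.MP_e62723_gt.Asy.Dens

/-!
# JOB Cosh: a second moment

Let `W(z) = cosh(⟪y,z⟫) e^{-‖y‖²/2}`.
`integral_W_sq`: `cosh² u = (1 + cosh(2u))/2`, `∫ cosh(⟪2y, z⟫) dγ = e^{2‖y‖²}` (two uses of
`integral_exp_inner`, for `2y` and `-2y`), `∫ cosh ⟪y,z⟫ dγ = e^{‖y‖²/2}`. So
`∫ (W - 1)² = e^{-‖y‖²} (1 + e^{2‖y‖²})/2 - 2 + 1 = cosh(‖y‖²) - 1`.
`integral_W_abs`: Cauchy–Schwarz for the probability measure `γ`:
`(∫ |W - 1|)² ≤ ∫ (W-1)² = cosh(‖y‖²) - 1 ≤ (‖y‖⁴/2) e^{‖y‖²}` (for `u ≥ 0`: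
`cosh u - 1 ≤ u² e^u / 2`; e.g. `cosh u - 1 = 2 sinh²(u/2)` and `sinh v ≤ v e^v`), so
`∫ |W - 1| ≤ ‖y‖² e^{‖y‖²/2}`.
(`sinh v ≤ v cosh v ≤ v e^v`; or directly `sinh v = (e^v - e^{-v})/2 = e^v (1 - e^{-2v})/2
≤ e^v v` by `1 - e^{-2v} ≤ 2v`.)
-/

open MeasureTheory ProbabilityTheory

namespace Pool.Agent.Lib.MP_e62723_gt.Asy

variable {n : ℕ}

theorem integrable_cosh (y : E n) :
    Integrable (fun z => Real.cosh (inner ℝ y z)) (gam n) := by
  have h1 : (fun z => Real.cosh (inner ℝ y z)) =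
      fun z => (Real.exp (inner ℝ y z) + Real.exp (inner ℝ (-y) z)) / 2 := by
    funext z
    rw [Real.cosh_eq, inner_neg_left]
  rw [h1]
  exact ((integrable_exp_inner y).add (integrable_exp_inner (-y))).div_const 2

private theorem Cosh_int (y : E n) :
    ∫ z, Real.cosh (inner ℝ y z) ∂(gam n) = Real.exp (‖y‖ ^ 2 / 2) := by
  have h1 : (fun z => Real.cosh (inner ℝ y z)) =
      fun z => (Real.exp (inner ℝ y z) + Real.exp (inner ℝ (-y) z)) / 2 := by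
    funext z
    rw [Real.cosh_eq, inner_neg_left]
  rw [h1, integral_div, integral_add (integrable_exp_inner y) (integrable_exp_inner (-y)),
    integral_exp_inner, integral_exp_inner, norm_neg]
  ring

theorem integral_W_sq (y : E n) :
    Integrable (fun z => (Real.cosh (inner ℝ y z) * Real.exp (-(‖y‖ ^ 2 / 2)) - 1) ^ 2) (gam n) ∧
    ∫ z, (Real.cosh (inner ℝ y z) * Real.exp (-(‖y‖ ^ 2 / 2)) - 1) ^ 2 ∂(gam n) =
      Real.cosh (‖y‖ ^ 2) - 1 := by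
  have h0 : ∀ z : E n, (Real.cosh (inner ℝ y z) * Real.exp (-(‖y‖ ^ 2 / 2)) - 1) ^ 2 =
      (Real.exp (-‖y‖ ^ 2) / 2) * Real.cosh (inner ℝ ((2 : ℝ) • y) z) -
        (2 * Real.exp (-(‖y‖ ^ 2 / 2))) * Real.cosh (inner ℝ y z) +
        (Real.exp (-‖y‖ ^ 2) / 2 + 1) := by
    intro z
    have h1 : Real.exp (-‖y‖ ^ 2) = Real.exp (-(‖y‖ ^ 2 / 2)) ^ 2 := by
      rw [← Real.exp_nat_mul]
      congr 1
      push_cast
      ring
    rw [real_inner_smul_left, Real.cosh_two_mul, Real.sinh_sq, h1]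
    ring
  have hI1 := integrable_cosh y
  have hI2 := integrable_cosh ((2 : ℝ) • y)
  have hI3 : Integrable (fun z => (Real.exp (-‖y‖ ^ 2) / 2) * Real.cosh (inner ℝ ((2 : ℝ) • y) z) -
      (2 * Real.exp (-(‖y‖ ^ 2 / 2))) * Real.cosh (inner ℝ y z)) (gam n) :=
    (hI2.const_mul (Real.exp (-‖y‖ ^ 2) / 2)).sub
      (hI1.const_mul (2 * Real.exp (-(‖y‖ ^ 2 / 2))))
  have hI4 := hI3.add (integrable_const (μ := gam n) (Real.exp (-‖y‖ ^ 2) / 2 + 1))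
  simp only [h0]
  refine ⟨hI4, ?_⟩
  rw [integral_add hI3 (integrable_const _), integral_sub (hI2.const_mul _) (hI1.const_mul _),
    integral_const_mul, integral_const_mul, Cosh_int, Cosh_int, integral_const, probReal_univ,
    one_smul, norm_smul, Real.norm_ofNat, Real.cosh_eq]
  have e1 : Real.exp (-‖y‖ ^ 2) / 2 * Real.exp ((2 * ‖y‖) ^ 2 / 2) = Real.exp (‖y‖ ^ 2) / 2 := by
    rw [div_mul_eq_mul_div, ← Real.exp_add]
    congr 2
    ring
  have e2 : 2 * Real.exp (-(‖y‖ ^ 2 / 2)) * Real.exp (‖y‖ ^ 2 / 2) = 2 := by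
    rw [mul_assoc, ← Real.exp_add, neg_add_cancel, Real.exp_zero, mul_one]
  rw [e1, e2]
  ring

theorem integral_W_abs (y : E n) :
    ∫ z, |Real.cosh (inner ℝ y z) * Real.exp (-(‖y‖ ^ 2 / 2)) - 1| ∂(gam n) ≤
      ‖y‖ ^ 2 * Real.exp (‖y‖ ^ 2 / 2) := by
  obtain ⟨hI, hint⟩ := integral_W_sq y
  have hu : 0 ≤ ‖y‖ ^ 2 := by positivity
  rcases eq_or_lt_of_le hu with h0 | h0
  · rw [← h0]
    have hy : y = 0 := by
      have := pow_eq_zero_iff (two_ne_zero) |>.mp h0.symm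
      exact norm_eq_zero.mp this
    simp [hy]
  · obtain ⟨A, hA⟩ : ∃ A, A = ‖y‖ ^ 2 * Real.exp (‖y‖ ^ 2 / 2) := ⟨_, rfl⟩
    have hA0 : 0 < A := by
      rw [hA]
      positivity
    rw [← hA]
    have hA2 : Real.cosh (‖y‖ ^ 2) - 1 ≤ A ^ 2 := by
      have h1 := Real.add_one_le_exp (-‖y‖ ^ 2)
      have h2 : Real.exp (-‖y‖ ^ 2) ≤ 1 := by
        rw [Real.exp_le_one_iff]
        linarith
      have h3 : (1 - Real.exp (-‖y‖ ^ 2)) ^ 2 ≤ (‖y‖ ^ 2) ^ 2 :=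
        pow_le_pow_left₀ (by linarith) (by linarith) 2
      have h4 : Real.exp (‖y‖ ^ 2) * Real.exp (-‖y‖ ^ 2) = 1 := by
        rw [← Real.exp_add, add_neg_cancel, Real.exp_zero]
      have h5 : Real.cosh (‖y‖ ^ 2) - 1 =
          Real.exp (‖y‖ ^ 2) * (1 - Real.exp (-‖y‖ ^ 2)) ^ 2 / 2 := by
        rw [Real.cosh_eq]
        linear_combination (1 - Real.exp (-‖y‖ ^ 2) / 2) * h4
      have h6 : A ^ 2 = Real.exp (‖y‖ ^ 2) * (‖y‖ ^ 2) ^ 2 := by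
        rw [hA, mul_pow, ← Real.exp_nat_mul, mul_comm]
        congr 2
        push_cast
        ring
      rw [h5, h6]
      have h7 := mul_le_mul_of_nonneg_left h3 (Real.exp_pos (‖y‖ ^ 2)).le
      have h8 : 0 ≤ Real.exp (‖y‖ ^ 2) * (‖y‖ ^ 2) ^ 2 := by positivity
      linarith
    have hpt : ∀ z : E n, |Real.cosh (inner ℝ y z) * Real.exp (-(‖y‖ ^ 2 / 2)) - 1| ≤
        (Real.cosh (inner ℝ y z) * Real.exp (-(‖y‖ ^ 2 / 2)) - 1) ^ 2 / (2 * A) + A / 2 := by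
      intro z
      obtain ⟨w, hw⟩ : ∃ w, w = Real.cosh (inner ℝ y z) * Real.exp (-(‖y‖ ^ 2 / 2)) - 1 := ⟨_, rfl⟩
      rw [← hw, ← sq_abs w]
      have h1 : |w| ^ 2 / (2 * A) + A / 2 - |w| = (|w| - A) ^ 2 / (2 * A) := by
        field_simp
        ring
      have h2 : 0 ≤ (|w| - A) ^ 2 / (2 * A) := by positivity
      linarith
    have hI2 : Integrable (fun z => (Real.cosh (inner ℝ y z) * Real.exp (-(‖y‖ ^ 2 / 2)) - 1) ^ 2 /
        (2 * A) + A / 2) (gam n) := (hI.div_const _).add (integrable_const _)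
    have hI1 : Integrable (fun z => |Real.cosh (inner ℝ y z) * Real.exp (-(‖y‖ ^ 2 / 2)) - 1|)
        (gam n) := (((integrable_cosh y).mul_const _).sub (integrable_const 1)).abs
    refine (integral_mono hI1 hI2 hpt).trans ?_
    rw [integral_add (hI.div_const _) (integrable_const _), integral_div, hint, integral_const,
      probReal_univ, one_smul]
    have h9 : (Real.cosh (‖y‖ ^ 2) - 1) / (2 * A) ≤ A / 2 := by
      rw [div_le_div_iff₀ (by positivity) (by norm_num)]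
      nlinarith
    linarith

end Pool.Agent.Lib.MP_e62723_gt.Asy
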