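import Pool.Agent.Lib.MP_e62723_gt.Asy.Noise
import Pool.Agent.Lib.MP_e62723_gt.Asy.Cosh

/-!
# JOB Crude: for an even bounded mean-zero `f`, `|∫ f T_r f| ≤ M r²` for small `r > 0`

Let `0 < r < 1`, `s = √(1 - r²) > 0`, `h = r/s`, `φ(z) = f (s • z)` (even). Then
`T n r f x = ∫ f (s • (z + h • x)) dγ(z) = ∫ φ(z + h•x) dγ(z)
 = ∫ φ(z) e^{⟪h•x, z⟫ - ‖h•x‖²/2} dγ(z)` (`shift`), and, replacing `z` by `-z` (`map_neg`), it is
also `∫ φ(z) e^{-⟪h•x, z⟫ - ‖h•x‖²/2} dγ(z)`; taking the mean of both,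
`T n r f x = ∫ φ(z) cosh(⟪h•x,z⟫) e^{-‖h•x‖²/2} dγ(z)` (`T_even`).
Let `m = ∫ φ dγ`. As `∫ f = 0`, `∫ f T_r f = ∫ f(x) (T_r f(x) - m) dγ(x)`, and
`|T_r f(x) - m| ≤ C ∫ |W - 1| dγ ≤ C ‖h•x‖² e^{‖h•x‖²/2} = C h² ‖x‖² e^{h²‖x‖²/2}`
(`integral_W_abs` with `y = h • x`).
By Fernique's theorem (`IsGaussian.exists_integrable_exp_sq`) there is `c > 0` with
`∫ e^{c‖x‖²} dγ < ∞`. If `h² ≤ c` then `‖x‖² e^{h²‖x‖²/2} ≤ (2/c) e^{c‖x‖²/2} e^{c‖x‖²/2}`
(`t ≤ e^t` with `t = c‖x‖²/2`), so `|∫ f T_r f| ≤ C² h² (2/c) ∫ e^{c‖x‖²}`. Finally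
`h² = r²/(1 - r²) ≤ 2 r²` if `r² ≤ 1/2`, and `h² ≤ c` if `2 r² ≤ c`; take
`r₀ = min (1/2) (√(c/2))`, `M = 2 C² (2/c) ∫ e^{c‖x‖²}` (or `+ 1`).
-/

open MeasureTheory ProbabilityTheory

namespace Pool.Agent.Lib.MP_e62723_gt.Asy

variable {n : ℕ}

theorem T_even {r C : ℝ} (hr0 : 0 < r) (hr1 : r < 1) {f : E n → ℝ} (hf : Measurable f)
    (hC : ∀ x, |f x| ≤ C) (hev : ∀ x, f (-x) = f x) (x : E n) :
    T n r f x = ∫ z, f (√(1 - r ^ 2) • z) *
      (Real.cosh (inner ℝ ((r / √(1 - r ^ 2)) • x) z) *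
        Real.exp (-(‖(r / √(1 - r ^ 2)) • x‖ ^ 2 / 2))) ∂(gam n) := by
  obtain ⟨s, hs⟩ : ∃ s : ℝ, s = √(1 - r ^ 2) := ⟨_, rfl⟩
  obtain ⟨y, hy⟩ : ∃ y : E n, y = (r / s) • x := ⟨_, rfl⟩
  rw [← hs, ← hy]
  have hs0 : 0 < s := by
    rw [hs]
    apply Real.sqrt_pos.mpr
    nlinarith
  have hφm : Measurable (fun z : E n => f (s • z)) := hf.comp (measurable_const_smul s)
  have h1 : T n r f x = ∫ z, (fun w : E n => f (s • w)) (z + y) ∂(gam n) := by
    unfold T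
    rw [← hs]
    refine integral_congr_ae (Filter.Eventually.of_forall fun z => ?_)
    show f (r • x + s • z) = f (s • (z + y))
    congr 1
    rw [smul_add, hy, smul_smul, mul_div_cancel₀ r hs0.ne', add_comm]
  have h2 := shift (fun w : E n => f (s • w)) y
  have hint : ∀ a : E n, Integrable (fun z : E n => f (s • z) *
      Real.exp (inner ℝ a z - ‖y‖ ^ 2 / 2)) (gam n) := by
    intro a
    refine Integrable.bdd_mul (c := C) ?_ hφm.aestronglyMeasurable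
      (Filter.Eventually.of_forall fun z => hC _)
    have h3 := (integrable_exp_inner a).mul_const (Real.exp (-(‖y‖ ^ 2 / 2)))
    refine h3.congr (Filter.Eventually.of_forall fun z => ?_)
    show Real.exp (inner ℝ a z) * Real.exp (-(‖y‖ ^ 2 / 2)) = Real.exp (inner ℝ a z - ‖y‖ ^ 2 / 2)
    rw [← Real.exp_add, sub_eq_add_neg]
  have h3 : ∫ z, f (s • z) * Real.exp (inner ℝ y z - ‖y‖ ^ 2 / 2) ∂(gam n) =
      ∫ z, f (s • z) * Real.exp (inner ℝ (-y) z - ‖y‖ ^ 2 / 2) ∂(gam n) := by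
    have h4 : ∫ z, f (s • z) * Real.exp (inner ℝ y z - ‖y‖ ^ 2 / 2) ∂((gam n).map (fun x : E n => -x)) =
        ∫ z, f (s • (-z)) * Real.exp (inner ℝ y (-z) - ‖y‖ ^ 2 / 2) ∂(gam n) := by
      rw [integral_map measurable_neg.aemeasurable]
      rw [map_neg]
      exact (hint y).aestronglyMeasurable
    rw [map_neg] at h4
    rw [h4]
    refine integral_congr_ae (Filter.Eventually.of_forall fun z => ?_)
    show f (s • (-z)) * Real.exp (inner ℝ y (-z) - ‖y‖ ^ 2 / 2) =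
      f (s • z) * Real.exp (inner ℝ (-y) z - ‖y‖ ^ 2 / 2)
    rw [smul_neg, hev, inner_neg_right, inner_neg_left]
  have h5 : ∫ z, f (s • z) * (Real.cosh (inner ℝ y z) * Real.exp (-(‖y‖ ^ 2 / 2))) ∂(gam n) =
      (∫ z, f (s • z) * Real.exp (inner ℝ y z - ‖y‖ ^ 2 / 2) ∂(gam n) +
        ∫ z, f (s • z) * Real.exp (inner ℝ (-y) z - ‖y‖ ^ 2 / 2) ∂(gam n)) / 2 := by
    rw [← integral_add (hint y) (hint (-y)), ← integral_div]
    refine integral_congr_ae (Filter.Eventually.of_forall fun z => ?_)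
    show f (s • z) * (Real.cosh (inner ℝ y z) * Real.exp (-(‖y‖ ^ 2 / 2))) =
      (f (s • z) * Real.exp (inner ℝ y z - ‖y‖ ^ 2 / 2) +
        f (s • z) * Real.exp (inner ℝ (-y) z - ‖y‖ ^ 2 / 2)) / 2
    rw [Real.cosh_eq, inner_neg_left, sub_eq_add_neg, sub_eq_add_neg, Real.exp_add, Real.exp_add]
    ring
  rw [h5, ← h3, h1, h2]
  ring

theorem crude {C : ℝ} {f : E n → ℝ} (hf : Measurable f)
    (hC : ∀ x, |f x| ≤ C) (hev : ∀ x, f (-x) = f x) (h0 : ∫ x, f x ∂(gam n) = 0) :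
    ∃ r₀ M : ℝ, 0 < r₀ ∧ 0 < M ∧ ∀ r : ℝ, 0 < r → r < r₀ →
      |∫ x, f x * T n r f x ∂(gam n)| ≤ M * r ^ 2 := by
  obtain ⟨c, hc, hcint⟩ := IsGaussian.exists_integrable_exp_sq (gam n)
  have hC0 : 0 ≤ C := (abs_nonneg _).trans (hC 0)
  obtain ⟨J, hJ⟩ : ∃ J : ℝ, J = ∫ x : E n, Real.exp (c * ‖x‖ ^ 2) ∂(gam n) := ⟨_, rfl⟩
  have hJ0 : 0 ≤ J := by
    rw [hJ]
    exact integral_nonneg fun x => (Real.exp_pos _).le
  refine ⟨min (1 / 2) (√(c / 2)), 2 * C ^ 2 * (2 / c) * J + 1, ?_, by positivity, ?_⟩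
  · exact lt_min (by norm_num) (Real.sqrt_pos.mpr (by positivity))
  intro r hr0 hr
  have hr2 : r < 1 / 2 := lt_of_lt_of_le hr (min_le_left _ _)
  have hr3 : r < √(c / 2) := lt_of_lt_of_le hr (min_le_right _ _)
  have hr4 : r ^ 2 < c / 2 := by
    have := Real.lt_sqrt hr0.le |>.mp hr3
    exact this
  have hr5 : r ^ 2 < 1 / 4 := by nlinarith
  obtain ⟨s, hs⟩ : ∃ s : ℝ, s = √(1 - r ^ 2) := ⟨_, rfl⟩
  obtain ⟨h, hh⟩ : ∃ h : ℝ, h = r / s := ⟨_, rfl⟩
  have hs2 : s ^ 2 = 1 - r ^ 2 := by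
    rw [hs]
    exact Real.sq_sqrt (by nlinarith)
  have hh2 : h ^ 2 ≤ 2 * r ^ 2 := by
    rw [hh, div_pow, hs2, div_le_iff₀ (by linarith)]
    nlinarith [sq_nonneg r]
  have hhc : h ^ 2 ≤ c := by linarith
  have hφm : Measurable (fun z : E n => f (s • z)) := hf.comp (measurable_const_smul s)
  have hφi : Integrable (fun z : E n => f (s • z)) (gam n) :=
    Integrable.of_bound hφm.aestronglyMeasurable C (Filter.Eventually.of_forall fun z => hC _)
  obtain ⟨m, hm⟩ : ∃ m : ℝ, m = ∫ z, f (s • z) ∂(gam n) := ⟨_, rfl⟩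
  have hdiff : ∀ x : E n, |T n r f x - m| ≤ C * (h ^ 2 * (2 / c) * Real.exp (c * ‖x‖ ^ 2)) := by
    intro x
    have h1 := T_even hr0 (by linarith) hf hC hev x
    rw [← hs, ← hh] at h1
    have hWi : Integrable (fun z : E n => Real.cosh (inner ℝ (h • x) z) *
        Real.exp (-(‖h • x‖ ^ 2 / 2))) (gam n) := (integrable_cosh (h • x)).mul_const _
    have hW1 : Integrable (fun z : E n => Real.cosh (inner ℝ (h • x) z) *
        Real.exp (-(‖h • x‖ ^ 2 / 2)) - 1) (gam n) := hWi.sub (integrable_const _)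
    have h2 : T n r f x - m = ∫ z, f (s • z) * (Real.cosh (inner ℝ (h • x) z) *
        Real.exp (-(‖h • x‖ ^ 2 / 2)) - 1) ∂(gam n) := by
      rw [h1, hm, ← integral_sub (hWi.bdd_mul (c := C) hφm.aestronglyMeasurable
        (Filter.Eventually.of_forall fun z => hC _)) hφi]
      refine integral_congr_ae (Filter.Eventually.of_forall fun z => ?_)
      show f (s • z) * _ - f (s • z) = f (s • z) * (_ - 1)
      ring
    have h3 : |T n r f x - m| ≤ ∫ z, C * |Real.cosh (inner ℝ (h • x) z) *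
        Real.exp (-(‖h • x‖ ^ 2 / 2)) - 1| ∂(gam n) := by
      rw [h2, ← Real.norm_eq_abs]
      refine norm_integral_le_of_norm_le (hW1.abs.const_mul C)
        (Filter.Eventually.of_forall fun z => ?_)
      rw [norm_mul, Real.norm_eq_abs, Real.norm_eq_abs]
      exact mul_le_mul_of_nonneg_right (hC _) (abs_nonneg _)
    refine h3.trans ?_
    rw [integral_const_mul]
    refine mul_le_mul_of_nonneg_left ((integral_W_abs (h • x)).trans ?_) hC0
    rw [norm_smul, mul_pow, Real.norm_eq_abs, sq_abs]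
    obtain ⟨t, ht⟩ : ∃ t : ℝ, t = ‖x‖ ^ 2 := ⟨_, rfl⟩
    rw [← ht]
    have ht0 : 0 ≤ t := by rw [ht]; positivity
    have e1 : Real.exp (h ^ 2 * t / 2) ≤ Real.exp (c * t / 2) := by
      apply Real.exp_le_exp.mpr
      nlinarith
    have e2 : t ≤ 2 / c * Real.exp (c * t / 2) := by
      have h4 := Real.add_one_le_exp (c * t / 2)
      have h5 : c * t / 2 ≤ Real.exp (c * t / 2) := by linarith
      have h6 : t = 2 / c * (c * t / 2) := by field_simp
      calc t = 2 / c * (c * t / 2) := h6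
        _ ≤ _ := mul_le_mul_of_nonneg_left h5 (by positivity)
    have e3 : Real.exp (c * t) = Real.exp (c * t / 2) * Real.exp (c * t / 2) := by
      rw [← Real.exp_add]
      congr 1
      ring
    rw [e3]
    calc h ^ 2 * t * Real.exp (h ^ 2 * t / 2)
        ≤ h ^ 2 * (2 / c * Real.exp (c * t / 2)) * Real.exp (c * t / 2) := by
          refine mul_le_mul (mul_le_mul_of_nonneg_left e2 (sq_nonneg _)) e1 (Real.exp_pos _).le ?_
          positivity
      _ = _ := by ring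
  have hTm : Measurable (T n r f) := T_measurable hf
  have hTi : Integrable (fun x => f x * T n r f x) (gam n) := by
    refine Integrable.of_bound (hf.mul hTm).aestronglyMeasurable (C * C)
      (Filter.Eventually.of_forall fun z => ?_)
    rw [Real.norm_eq_abs, abs_mul]
    exact mul_le_mul (hC _) (T_bdd hC _) (abs_nonneg _) hC0
  have hfi : Integrable f (gam n) :=
    Integrable.of_bound hf.aestronglyMeasurable C (Filter.Eventually.of_forall fun z => hC _)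
  have h6 : ∫ x, f x * T n r f x ∂(gam n) = ∫ x, f x * (T n r f x - m) ∂(gam n) := by
    have h7 : ∫ x, f x * (T n r f x - m) ∂(gam n) =
        ∫ x, f x * T n r f x ∂(gam n) - ∫ x, f x * m ∂(gam n) := by
      rw [← integral_sub hTi (hfi.mul_const m)]
      refine integral_congr_ae (Filter.Eventually.of_forall fun z => ?_)
      show f z * (T n r f z - m) = f z * T n r f z - f z * m
      ring
    rw [h7, integral_mul_const, h0, zero_mul, sub_zero]
  rw [h6, ← Real.norm_eq_abs]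
  have h8 : ‖∫ x, f x * (T n r f x - m) ∂(gam n)‖ ≤
      ∫ x : E n, (C * (C * (h ^ 2 * (2 / c)))) * Real.exp (c * ‖x‖ ^ 2) ∂(gam n) := by
    refine norm_integral_le_of_norm_le (hcint.const_mul _)
      (Filter.Eventually.of_forall fun x => ?_)
    rw [norm_mul, Real.norm_eq_abs, Real.norm_eq_abs]
    calc |f x| * |T n r f x - m| ≤ C * (C * (h ^ 2 * (2 / c) * Real.exp (c * ‖x‖ ^ 2))) :=
          mul_le_mul (hC _) (hdiff x) (abs_nonneg _) hC0
      _ = _ := by ring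
  refine h8.trans ?_
  rw [integral_const_mul, ← hJ]
  have h9 : C * (C * (h ^ 2 * (2 / c))) * J ≤ C * (C * (2 * r ^ 2 * (2 / c))) * J := by
    gcongr
  refine h9.trans ?_
  have h10 : (2 * C ^ 2 * (2 / c) * J + 1) * r ^ 2 = C * (C * (2 * r ^ 2 * (2 / c))) * J + r ^ 2 := by
    ring
  rw [h10]
  nlinarith [sq_nonneg r]

end Pool.Agent.Lib.MP_e62723_gt.Asy
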