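import Mathlib
import Pool.Agent.Lib.MP_e62723_gt.Defs

/-!
# Bodies of constant width in high dimension: definitions
-/

open MeasureTheory ProbabilityTheory

namespace Pool.Agent.Lib.MP_e62723_gt

/-- The support function `h_K(u) = max_{x ∈ K} ⟨x, u⟩`. -/
noncomputable def suppFun {n : ℕ} (K : Set (E n)) (u : E n) : ℝ :=
  sSup ((fun x : E n => inner ℝ x u) '' K)

/-- `K` has constant width `w`. -/
def HasConstantWidth {n : ℕ} (K : Set (E n)) (w : ℝ) : Prop :=
  ∀ u : E n, ‖u‖ = 1 → suppFun K u + suppFun K (-u) = w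

/-- `m_W(n)`: the infimum of the volumes of the convex bodies of constant width `2` in `ℝⁿ`. -/
noncomputable def mW (n : ℕ) : ℝ :=
  sInf {v : ℝ | ∃ K : Set (E n), IsConvexBody K ∧ HasConstantWidth K 2 ∧ v = (volume K).toReal}

namespace Asy

/-- The standard Gaussian measure of `ℝⁿ`. -/
noncomputable abbrev gam (n : ℕ) : Measure (E n) := stdGaussian (E n)

/-- The noise operator `T_a f(x) = ∫ f(a x + √(1-a²) z) dγ(z)`. -/
noncomputable def T (n : ℕ) (a : ℝ) (f : E n → ℝ) (x : E n) : ℝ :=
  ∫ z, f (a • x + √(1 - a ^ 2) • z) ∂(gam n)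

/-- The function `ψ_K(y) = max_{x ∈ K} (‖x‖²/2 - ⟨x, y⟩)`, so that the square of the largest
distance of `y` to a point of `K` is `‖y‖² + 2 ψ_K(y)`. -/
noncomputable def psi {n : ℕ} (K : Set (E n)) (y : E n) : ℝ :=
  sSup ((fun x : E n => ‖x‖ ^ 2 / 2 - inner ℝ x y) '' K)

/-- The farthest point map: `far K y` is the point of `K` farthest from `y`, at every `y` where
`psi K` is differentiable (and the junk value `0` elsewhere). -/
noncomputable def far {n : ℕ} (K : Set (E n)) (y : E n) : E n :=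
  -((InnerProductSpace.toDual ℝ (E n)).symm (fderiv ℝ (psi K) y))

end Asy

end Pool.Agent.Lib.MP_e62723_gt
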