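import Pool.Agent.Lib.MP_e62723_gt.Asy.Crude

/-!
# The spectral gap on even functions

`T_energy`: `∫ f T_{a²} f = ∫ f T_a (T_a f) = ∫ (T_a f)²` (`T_T`, `T_symm`).
`T_double`: Cauchy–Schwarz, `(∫ f T_a f)² ≤ ∫ f² ∫ (T_a f)² = ∫ f² ∫ f T_{a²} f`.
(Cauchy–Schwarz for bounded measurable functions: e.g. for all real `t`,
`0 ≤ ∫ (f - t g)² = A - 2 t B + t² D`, so `B² ≤ A D` (`discrim_le_zero` or directly).)
`gap`: Let `q(r) = ∫ f T_r f`, `A = ∫ f²`. If `A = 0` then `q(ρ)² ≤ 0`, so `q(ρ) = 0`. Let `A > 0`.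
`q(r) ≥ 0` for `0 < r < 1` (`T_energy` with `a = √r`). By induction on `k`, with `T_double`,
`q(ρ)^(2^k) ≤ A^(2^k - 1) q(ρ^(2^k))`, that is `(q(ρ)/A)^(2^k) ≤ q(ρ^(2^k))/A`. For large `k`,
`ρ^(2^k) < r₀` and so `(q(ρ)/A)^(2^k) ≤ (M/A) (ρ²)^(2^k)` (`crude`), i.e.
`(q(ρ)/(A ρ²))^(2^k) ≤ M/A` for all large `k`. If `q(ρ) > A ρ²` the left-hand side tends to
infinity (`tendsto_pow_atTop_atTop_of_one_lt`, `one_add_mul_le_pow`), a contradiction.
-/

open MeasureTheory ProbabilityTheory Filter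

namespace Pool.Agent.Lib.MP_e62723_gt.Asy

variable {n : ℕ}

private theorem Gap_int {C : ℝ} {f : E n → ℝ} (hf : Measurable f) (hC : ∀ x, |f x| ≤ C) :
    Integrable f (gam n) :=
  Integrable.of_bound hf.aestronglyMeasurable C
    (Filter.Eventually.of_forall fun x => by rw [Real.norm_eq_abs]; exact hC x)

private theorem Gap_int_mul {C D : ℝ} {f g : E n → ℝ} (hf : Measurable f) (hg : Measurable g)
    (hC : ∀ x, |f x| ≤ C) (hD : ∀ x, |g x| ≤ D) :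
    Integrable (fun x => f x * g x) (gam n) := by
  apply Gap_int (C := C * D) (hf.mul hg)
  intro x
  rw [Pi.mul_apply, abs_mul]
  exact mul_le_mul (hC x) (hD x) (abs_nonneg _) ((abs_nonneg _).trans (hC x))

theorem cauchy_schwarz {C D : ℝ} {f g : E n → ℝ} (hf : Measurable f) (hg : Measurable g)
    (hC : ∀ x, |f x| ≤ C) (hD : ∀ x, |g x| ≤ D) :
    (∫ x, f x * g x ∂(gam n)) ^ 2 ≤ (∫ x, f x ^ 2 ∂(gam n)) * ∫ x, g x ^ 2 ∂(gam n) := by
  have hff : Integrable (fun x => f x ^ 2) (gam n) := by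
    simp only [sq]
    exact Gap_int_mul hf hf hC hC
  have hgg : Integrable (fun x => g x ^ 2) (gam n) := by
    simp only [sq]
    exact Gap_int_mul hg hg hD hD
  have hfg := Gap_int_mul hf hg hC hD
  have key : ∀ t : ℝ, 0 ≤ (∫ x, g x ^ 2 ∂(gam n)) * (t * t) +
      (-2 * ∫ x, f x * g x ∂(gam n)) * t + ∫ x, f x ^ 2 ∂(gam n) := by
    intro t
    have h1 : 0 ≤ ∫ x, (f x - t * g x) ^ 2 ∂(gam n) := integral_nonneg fun x => sq_nonneg _
    have h2 : ∫ x, (f x - t * g x) ^ 2 ∂(gam n) = (∫ x, g x ^ 2 ∂(gam n)) * (t * t) +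
      (-2 * ∫ x, f x * g x ∂(gam n)) * t + ∫ x, f x ^ 2 ∂(gam n) := by
      have h3 : ∀ x, (f x - t * g x) ^ 2 = t * t * g x ^ 2 + (-2 * t) * (f x * g x) + f x ^ 2 := by
        intro x
        ring
      simp_rw [h3]
      have i1 : Integrable (fun x => t * t * g x ^ 2) (gam n) := hgg.const_mul _
      have i2 : Integrable (fun x => -2 * t * (f x * g x)) (gam n) := hfg.const_mul _
      have i3 : Integrable (fun x => t * t * g x ^ 2 + -2 * t * (f x * g x)) (gam n) := i1.add i2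
      rw [integral_add i3 hff, integral_add i1 i2, integral_const_mul, integral_const_mul]
      ring
    rwa [h2] at h1
  have h4 := discrim_le_zero key
  unfold discrim at h4
  nlinarith

theorem T_energy {a C : ℝ} (ha : a ^ 2 ≤ 1) {f : E n → ℝ} (hf : Measurable f)
    (hC : ∀ x, |f x| ≤ C) :
    ∫ x, f x * T n (a ^ 2) f x ∂(gam n) = ∫ x, T n a f x ^ 2 ∂(gam n) := by
  have h1 : ∀ x, T n (a ^ 2) f x = T n a (T n a f) x := fun x => (T_T ha hf hC x).symm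
  simp_rw [h1]
  rw [T_symm ha hf (T_measurable hf) hC (T_bdd hC)]
  simp_rw [sq]

theorem T_double {a C : ℝ} (ha : a ^ 2 ≤ 1) {f : E n → ℝ} (hf : Measurable f)
    (hC : ∀ x, |f x| ≤ C) :
    (∫ x, f x * T n a f x ∂(gam n)) ^ 2 ≤
      (∫ x, f x ^ 2 ∂(gam n)) * ∫ x, f x * T n (a ^ 2) f x ∂(gam n) := by
  rw [T_energy ha hf hC]
  exact cauchy_schwarz hf (T_measurable hf) hC (T_bdd hC)

theorem gap {ρ C : ℝ} (h0 : 0 < ρ) (h1 : ρ < 1) {f : E n → ℝ} (hf : Measurable f)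
    (hC : ∀ x, |f x| ≤ C) (hev : ∀ x, f (-x) = f x) (hm : ∫ x, f x ∂(gam n) = 0) :
    ∫ x, f x * T n ρ f x ∂(gam n) ≤ ρ ^ 2 * ∫ x, f x ^ 2 ∂(gam n) := by
  set A := ∫ x, f x ^ 2 ∂(gam n) with hA
  have hA0 : 0 ≤ A := integral_nonneg fun x => sq_nonneg _
  set q : ℝ → ℝ := fun r => ∫ x, f x * T n r f x ∂(gam n) with hq
  change q ρ ≤ ρ ^ 2 * A
  have hdouble : ∀ r : ℝ, r ^ 2 ≤ 1 → q r ^ 2 ≤ A * q (r ^ 2) := fun r hr => T_double hr hf hC
  have hnonneg : ∀ r : ℝ, 0 ≤ r → r ≤ 1 → 0 ≤ q r := by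
    intro r hr0 hr1
    have h2 : (√r) ^ 2 = r := Real.sq_sqrt hr0
    have h3 := T_energy (n := n) (a := √r) (by rw [h2]; exact hr1) hf hC
    rw [h2] at h3
    change q r = _ at h3
    rw [h3]
    exact integral_nonneg fun x => sq_nonneg _
  rcases hA0.eq_or_lt with hAz | hApos
  · have h2 := hdouble ρ (by nlinarith)
    rw [← hAz, zero_mul] at h2
    have h3 : q ρ = 0 := by
      have := le_antisymm h2 (sq_nonneg _)
      exact pow_eq_zero_iff (two_ne_zero) |>.1 this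
    rw [h3, ← hAz, mul_zero]
  obtain ⟨r₀, M, hr₀, hM, hcr⟩ := crude hf hC hev hm
  have hind : ∀ k : ℕ, (q ρ / A) ^ (2 ^ k) ≤ q (ρ ^ (2 ^ k)) / A := by
    intro k
    induction k with
    | zero => simp
    | succ k ih =>
      have hρk0 : 0 ≤ ρ ^ (2 ^ k) := by positivity
      have hρk1 : ρ ^ (2 ^ k) ≤ 1 := pow_le_one₀ h0.le h1.le
      have h2 : 0 ≤ (q ρ / A) ^ (2 ^ k) := by
        have := hnonneg ρ h0.le h1.le
        positivity
      have h3 := hdouble (ρ ^ (2 ^ k)) (pow_le_one₀ hρk0 hρk1)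
      rw [← pow_mul, ← pow_succ] at h3
      calc (q ρ / A) ^ (2 ^ (k + 1)) = ((q ρ / A) ^ (2 ^ k)) ^ 2 := by
            rw [← pow_mul, ← pow_succ]
        _ ≤ (q (ρ ^ (2 ^ k)) / A) ^ 2 := pow_le_pow_left₀ h2 ih 2
        _ = q (ρ ^ (2 ^ k)) ^ 2 / A ^ 2 := by rw [div_pow]
        _ ≤ (A * q (ρ ^ (2 ^ (k + 1)))) / A ^ 2 := by gcongr
        _ = q (ρ ^ (2 ^ (k + 1))) / A := by
            field_simp
  by_contra hcon
  push Not at hcon
  have hρ2 : 0 < ρ ^ 2 := by positivity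
  set B := q ρ / A / ρ ^ 2 with hB
  have hB1 : 1 < B := by
    rw [hB, lt_div_iff₀ hρ2, one_mul, lt_div_iff₀ hApos]
    exact hcon
  -- for large k
  have ht1 : Tendsto (fun k : ℕ => ρ ^ (2 ^ k)) atTop (nhds 0) := by
    have h2 : Tendsto (fun m : ℕ => ρ ^ m) atTop (nhds 0) :=
      tendsto_pow_atTop_nhds_zero_of_lt_one h0.le h1
    exact h2.comp (tendsto_pow_atTop_atTop_of_one_lt (one_lt_two : (1 : ℕ) < 2))
  have ht2 : Tendsto (fun k : ℕ => B ^ (2 ^ k)) atTop atTop := by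
    have h2 : Tendsto (fun m : ℕ => B ^ m) atTop atTop := tendsto_pow_atTop_atTop_of_one_lt hB1
    exact h2.comp (tendsto_pow_atTop_atTop_of_one_lt (one_lt_two : (1 : ℕ) < 2))
  obtain ⟨k, hk1, hk2⟩ := ((ht1.eventually (gt_mem_nhds hr₀)).and
    (ht2.eventually (eventually_gt_atTop (M / A)))).exists
  have h2 := hcr (ρ ^ (2 ^ k)) (by positivity) hk1
  change |q (ρ ^ (2 ^ k))| ≤ _ at h2
  have h3 := (le_abs_self _).trans h2
  have h4 : (q ρ / A) ^ (2 ^ k) ≤ M / A * (ρ ^ 2) ^ (2 ^ k) := by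
    refine (hind k).trans ?_
    calc q (ρ ^ (2 ^ k)) / A ≤ (M * (ρ ^ (2 ^ k)) ^ 2) / A := by gcongr
      _ = M / A * (ρ ^ 2) ^ (2 ^ k) := by
          rw [← pow_mul, ← pow_mul, mul_comm 2]
          ring
  have h5 : B ^ (2 ^ k) ≤ M / A := by
    rw [hB, div_pow, div_le_iff₀ (by positivity)]
    exact h4
  linarith

end Pool.Agent.Lib.MP_e62723_gt.Asy
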