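import Pool.Agent.Lib.MP_e62723_gt.Asy.Defs

/-!
# Elementary facts on bodies of constant width 2

`inner_le_suppFun`, `exists_suppFun_eq`: `K` is compact and nonempty and `x ↦ ⟪x,u⟫` continuous
(`le_csSup`, `IsCompact.exists_isMaxOn` or `IsCompact.exists_sSup_image_eq`).
`norm_sub_le_two`: if `x ≠ y` put `u = (x-y)/‖x-y‖`; `⟪x,u⟫ ≤ h(u)`, `⟪y,-u⟫ ≤ h(-u)`, so
`‖x-y‖ = ⟪x - y,u⟫ ≤ h(u) + h(-u) = 2`.
`exists_far`: `K` is closed and convex, `y ∉ K`: there is a unit vector `u` with `⟪y,u⟫ > h(u)`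
(e.g. `geometric_hahn_banach_closed_point : Convex ℝ s → IsClosed s → x ∉ s →
∃ (f : StrongDual ℝ E) (u : ℝ), (∀ a ∈ s, f a < u) ∧ u < f x`, Riesz representation
`(InnerProductSpace.toDual ℝ _).symm f = v`, `v ≠ 0` as `K` is nonempty, `u = v/‖v‖`; or the
nearest point of `K` to `y`). Let `x ∈ K` with `⟪x,-u⟫ = h(-u) = 2 - h(u)`. Then
`‖x - y‖ ≥ ⟪y - x, u⟫ > h(u) + 2 - h(u) = 2`.
`exists_body`: the closed unit ball; `suppFun (closedBall 0 1) u = ‖u‖` (attained at `u/‖u‖` for
`‖u‖ = 1`: at `u`), convex, compact, its interior contains `ball 0 1`.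
-/

open MeasureTheory Set

namespace Pool.Agent.Lib.MP_e62723_gt.Asy

variable {n : ℕ} {K : Set (E n)}

theorem nonempty_of (hK : IsConvexBody K) : K.Nonempty :=
  hK.interior_nonempty.mono interior_subset

private theorem Geo_contOn (K : Set (E n)) (u : E n) :
    ContinuousOn (fun x : E n => inner ℝ x u) K := by
  apply Continuous.continuousOn
  fun_prop

theorem inner_le_suppFun (hK : IsConvexBody K) {x : E n} (hx : x ∈ K) (u : E n) :
    inner ℝ x u ≤ suppFun K u := by
  unfold suppFun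
  exact le_csSup (hK.compact.image_of_continuousOn (Geo_contOn K u)).bddAbove ⟨x, hx, rfl⟩

theorem exists_suppFun_eq (hK : IsConvexBody K) (u : E n) : ∃ x ∈ K, inner ℝ x u = suppFun K u := by
  obtain ⟨x, hx, h⟩ := hK.compact.exists_sSup_image_eq (nonempty_of hK) (Geo_contOn K u)
  exact ⟨x, hx, h.symm⟩

theorem norm_sub_le_two (hK : IsConvexBody K) (hw : HasConstantWidth K 2) {x y : E n}
    (hx : x ∈ K) (hy : y ∈ K) : ‖x - y‖ ≤ 2 := by
  rcases eq_or_ne (x - y) 0 with h | h
  · rw [h, norm_zero]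
    norm_num
  have hn : 0 < ‖x - y‖ := norm_pos_iff.2 h
  set u : E n := (‖x - y‖)⁻¹ • (x - y) with hu
  have hu1 : ‖u‖ = 1 := by
    rw [hu, norm_smul, norm_inv, norm_norm, inv_mul_cancel₀ hn.ne']
  have h1 := inner_le_suppFun hK hx u
  have h2 := inner_le_suppFun hK hy (-u)
  have h3 := hw u hu1
  rw [inner_neg_right] at h2
  have h4 : inner ℝ (x - y) u = ‖x - y‖ := by
    rw [hu, inner_smul_right, real_inner_self_eq_norm_sq, sq, ← mul_assoc,
      inv_mul_cancel₀ hn.ne', one_mul]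
  rw [inner_sub_left] at h4
  linarith

theorem exists_far (hK : IsConvexBody K) (hw : HasConstantWidth K 2) {y : E n} (hy : y ∉ K) :
    ∃ x ∈ K, 2 < ‖x - y‖ := by
  obtain ⟨f, s, h1, h2⟩ := geometric_hahn_banach_closed_point hK.convex hK.compact.isClosed hy
  set v : E n := (InnerProductSpace.toDual ℝ (E n)).symm f with hv
  have hf : ∀ z : E n, f z = inner ℝ z v := by
    intro z
    rw [real_inner_comm, hv, InnerProductSpace.toDual_symm_apply]
  have hv0 : 0 < ‖v‖ := by
    rw [norm_pos_iff]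
    intro h0
    obtain ⟨x, hx⟩ := nonempty_of hK
    have h3 := h1 x hx
    rw [hf, h0, inner_zero_right] at h3
    rw [hf, h0, inner_zero_right] at h2
    linarith
  set u : E n := (‖v‖)⁻¹ • v with hu
  have hu1 : ‖u‖ = 1 := by
    rw [hu, norm_smul, norm_inv, norm_norm, inv_mul_cancel₀ hv0.ne']
  have hlt : suppFun K u < inner ℝ y u := by
    obtain ⟨x, hx, h3⟩ := exists_suppFun_eq hK u
    rw [← h3, hu, inner_smul_right, inner_smul_right]
    apply mul_lt_mul_of_pos_left _ (inv_pos.2 hv0)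
    rw [← hf, ← hf]
    exact (h1 x hx).trans h2
  obtain ⟨x, hx, h4⟩ := exists_suppFun_eq hK (-u)
  refine ⟨x, hx, ?_⟩
  have h5 := hw u hu1
  rw [inner_neg_right] at h4
  have h6 : inner ℝ (y - x) u ≤ ‖y - x‖ := by
    have := real_inner_le_norm (y - x) u
    rwa [hu1, mul_one] at this
  rw [inner_sub_left] at h6
  rw [norm_sub_rev]
  linarith

theorem exists_body (n : ℕ) : ∃ K : Set (E n), IsConvexBody K ∧ HasConstantWidth K 2 := by
  refine ⟨Metric.closedBall 0 1, ⟨isCompact_closedBall 0 1, convex_closedBall 0 1, ?_⟩, ?_⟩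
  · refine ⟨0, ?_⟩
    apply interior_mono Metric.ball_subset_closedBall
    rw [Metric.isOpen_ball.interior_eq]
    exact Metric.mem_ball_self one_pos
  · have key : ∀ u : E n, ‖u‖ = 1 → suppFun (Metric.closedBall (0 : E n) 1) u = 1 := by
      intro u hu
      unfold suppFun
      apply IsGreatest.csSup_eq
      constructor
      · refine ⟨u, by simp [hu], ?_⟩
        simp only
        rw [real_inner_self_eq_norm_sq, hu]
        norm_num
      · rintro _ ⟨x, hx, rfl⟩
        rw [mem_closedBall_zero_iff] at hx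
        simp only
        refine (real_inner_le_norm _ _).trans ?_
        rw [hu, mul_one]
        exact hx
    intro u hu
    rw [key u hu, key (-u) (by rwa [norm_neg])]
    norm_num

end Pool.Agent.Lib.MP_e62723_gt.Asy
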