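import Pool.Agent.Lib.MP_e62723_gt.Asy.Scalar

/-!
# JOB Key: the inequality for negatively correlated pairs, vector case

Apply `scalar` to the coordinates `f_i(x) = X(x) i` (bounded by `C` since `|v i| ≤ ‖v‖`, measurable,
`∫ f_i = (∫ X) i = 0`) and sum over `i`. By `integral_mul_T` (with `a = -ρ`, `(-ρ)² = ρ²`) the
left-hand sides sum up to `∫ ⟪X q.1, X (-ρ • q.1 + √(1-ρ²) • q.2)⟫`
(`⟪u,v⟫ = Σ_i v i * u i`, `PiLp.inner_apply` / `EuclideanSpace.inner_eq_star_dotProduct`,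
`integral_finset_sum`), the first terms to `ρ² ∫ ‖X‖²` (`EuclideanSpace.real_norm_sq_eq`), and
`Σ_i Σ_j (∫ f_i x_j)² ≥ Σ_i (∫ f_i x_i)² ≥ (Σ_i ∫ f_i x_i)²/n = (∫ ⟪X, x⟫)²/n`
(`Finset.single_le_sum`, `inner_mul_le_norm_mul_norm` or `sq_sum_le_card_mul_sum_sq`).
-/

open MeasureTheory ProbabilityTheory

namespace Pool.Agent.Lib.MP_e62723_gt.Asy

variable {n : ℕ}

theorem key (hn : 0 < n) {ρ C : ℝ} (h0 : 0 < ρ) (h1 : ρ < 1) {X : E n → E n} (hX : Measurable X)
    (hC : ∀ x, ‖X x‖ ≤ C) (hm : ∫ x, X x ∂(gam n) = 0) :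
    ∫ q : E n × E n, inner ℝ (X q.1) (X (-ρ • q.1 + √(1 - ρ ^ 2) • q.2))
        ∂((gam n).prod (gam n)) ≤
      ρ ^ 2 * ∫ x, ‖X x‖ ^ 2 ∂(gam n) -
        (ρ + ρ ^ 2) * ((∫ x, inner ℝ (X x) x ∂(gam n)) ^ 2 / n) := by
  have hn' : (0 : ℝ) < n := by exact_mod_cast hn
  have hfm : ∀ i : Fin n, Measurable (fun x : E n => X x i) := by
    intro i
    exact (EuclideanSpace.proj (𝕜 := ℝ) i).continuous.measurable.comp hX
  have hfC : ∀ (i : Fin n) (x : E n), |X x i| ≤ C := by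
    intro i x
    have h2 : ‖X x i‖ ≤ ‖X x‖ := PiLp.norm_apply_le (X x) i
    rw [Real.norm_eq_abs] at h2
    exact h2.trans (hC x)
  have hXint : Integrable X (gam n) :=
    Integrable.of_bound hX.aestronglyMeasurable C (Filter.Eventually.of_forall hC)
  have hfint : ∀ i : Fin n, Integrable (fun x : E n => X x i) (gam n) := by
    intro i
    exact Integrable.of_bound (hfm i).aestronglyMeasurable C
      (Filter.Eventually.of_forall fun x => by rw [Real.norm_eq_abs]; exact hfC i x)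
  have hf0 : ∀ i : Fin n, ∫ x, X x i ∂(gam n) = 0 := by
    intro i
    have h2 := (EuclideanSpace.proj (𝕜 := ℝ) i : E n →L[ℝ] ℝ).integral_comp_comm hXint
    rw [hm, map_zero] at h2
    exact h2
  have hsc : ∀ i : Fin n,
      ∫ q : E n × E n, X q.1 i * X (-ρ • q.1 + √(1 - ρ ^ 2) • q.2) i
        ∂((gam n).prod (gam n)) ≤
      ρ ^ 2 * ∫ x, X x i ^ 2 ∂(gam n) -
        (ρ + ρ ^ 2) * ∑ j, (∫ x : E n, X x i * x j ∂(gam n)) ^ 2 := by
    intro i
    have h2 := scalar h0 h1 (hfm i) (hfC i) (hf0 i)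
    have h3 := integral_mul_T (a := -ρ) (hfm i) (hfm i) (hfC i) (hfC i)
    rw [neg_sq] at h3
    rw [← h3]
    exact h2
  have hcomb : Measurable fun q : E n × E n => -ρ • q.1 + √(1 - ρ ^ 2) • q.2 := by
    fun_prop
  have hqint : ∀ i : Fin n, Integrable
      (fun q : E n × E n => X q.1 i * X (-ρ • q.1 + √(1 - ρ ^ 2) • q.2) i)
      ((gam n).prod (gam n)) := by
    intro i
    have hmeas : Measurable
        (fun q : E n × E n => X q.1 i * X (-ρ • q.1 + √(1 - ρ ^ 2) • q.2) i) :=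
      ((hfm i).comp measurable_fst).mul ((hfm i).comp hcomb)
    refine Integrable.of_bound hmeas.aestronglyMeasurable (C * C)
      (Filter.Eventually.of_forall fun q => ?_)
    rw [Real.norm_eq_abs, abs_mul]
    have hC0 : 0 ≤ C := (abs_nonneg _).trans (hfC i q.1)
    exact mul_le_mul (hfC i _) (hfC i _) (abs_nonneg _) hC0
  have hL : ∫ q : E n × E n, inner ℝ (X q.1) (X (-ρ • q.1 + √(1 - ρ ^ 2) • q.2))
        ∂((gam n).prod (gam n)) =
      ∑ i, ∫ q : E n × E n, X q.1 i * X (-ρ • q.1 + √(1 - ρ ^ 2) • q.2) i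
        ∂((gam n).prod (gam n)) := by
    rw [← integral_finsetSum _ fun i _ => hqint i]
    apply integral_congr_ae
    filter_upwards with q
    rw [PiLp.inner_apply]
    apply Finset.sum_congr rfl
    intro i _
    simp [mul_comm]
  have hsqint : ∀ i : Fin n, Integrable (fun x : E n => X x i ^ 2) (gam n) := by
    intro i
    refine Integrable.of_bound ((hfm i).pow_const 2).aestronglyMeasurable (C ^ 2)
      (Filter.Eventually.of_forall fun x => ?_)
    rw [Real.norm_eq_abs, abs_pow]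
    exact pow_le_pow_left₀ (abs_nonneg _) (hfC i x) 2
  have hN : ∫ x, ‖X x‖ ^ 2 ∂(gam n) = ∑ i, ∫ x, X x i ^ 2 ∂(gam n) := by
    rw [← integral_finsetSum _ fun i _ => hsqint i]
    apply integral_congr_ae
    filter_upwards with x
    rw [EuclideanSpace.real_norm_sq_eq]
  have hcint : ∀ i : Fin n, Integrable (fun x : E n => X x i * x i) (gam n) := by
    intro i
    refine (integrable_coord i).bdd_mul (c := C) (hfm i).aestronglyMeasurable
      (Filter.Eventually.of_forall fun x => ?_)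
    rw [Real.norm_eq_abs]
    exact hfC i x
  have hI : ∫ x, inner ℝ (X x) x ∂(gam n) = ∑ i, ∫ x : E n, X x i * x i ∂(gam n) := by
    rw [← integral_finsetSum _ fun i _ => hcint i]
    apply integral_congr_ae
    filter_upwards with x
    rw [PiLp.inner_apply]
    apply Finset.sum_congr rfl
    intro i _
    simp [mul_comm]
  have hdiag : (∫ x, inner ℝ (X x) x ∂(gam n)) ^ 2 / n ≤
      ∑ i, ∑ j, (∫ x : E n, X x i * x j ∂(gam n)) ^ 2 := by
    rw [div_le_iff₀ hn', hI]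
    have h2 := sq_sum_le_card_mul_sum_sq (s := Finset.univ)
      (f := fun i : Fin n => ∫ x : E n, X x i * x i ∂(gam n))
    rw [Finset.card_univ, Fintype.card_fin] at h2
    have h3 : ∑ i : Fin n, (∫ x : E n, X x i * x i ∂(gam n)) ^ 2 ≤
        ∑ i : Fin n, ∑ j, (∫ x : E n, X x i * x j ∂(gam n)) ^ 2 := by
      apply Finset.sum_le_sum
      intro i _
      exact Finset.single_le_sum (f := fun j : Fin n => (∫ x : E n, X x i * x j ∂(gam n)) ^ 2)
        (fun j _ => sq_nonneg _) (Finset.mem_univ i)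
    calc (∑ i : Fin n, ∫ x : E n, X x i * x i ∂(gam n)) ^ 2
        ≤ n * ∑ i : Fin n, (∫ x : E n, X x i * x i ∂(gam n)) ^ 2 := h2
      _ ≤ n * ∑ i : Fin n, ∑ j, (∫ x : E n, X x i * x j ∂(gam n)) ^ 2 :=
          mul_le_mul_of_nonneg_left h3 hn'.le
      _ = (∑ i : Fin n, ∑ j, (∫ x : E n, X x i * x j ∂(gam n)) ^ 2) * n := mul_comm _ _
  have hpos : 0 ≤ ρ + ρ ^ 2 := by positivity
  rw [hL, hN]
  calc ∑ i, ∫ q : E n × E n, X q.1 i * X (-ρ • q.1 + √(1 - ρ ^ 2) • q.2) i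
        ∂((gam n).prod (gam n))
      ≤ ∑ i, (ρ ^ 2 * ∫ x, X x i ^ 2 ∂(gam n) -
        (ρ + ρ ^ 2) * ∑ j, (∫ x : E n, X x i * x j ∂(gam n)) ^ 2) :=
        Finset.sum_le_sum fun i _ => hsc i
    _ = ρ ^ 2 * ∑ i, ∫ x, X x i ^ 2 ∂(gam n) -
        (ρ + ρ ^ 2) * ∑ i, ∑ j, (∫ x : E n, X x i * x j ∂(gam n)) ^ 2 := by
        rw [Finset.sum_sub_distrib, Finset.mul_sum, Finset.mul_sum]
    _ ≤ _ := by
        have := mul_le_mul_of_nonneg_left hdiag hpos
        linarith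

end Pool.Agent.Lib.MP_e62723_gt.Asy
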