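import Pool.Agent.Lib.MP_e62723_gt.Asy.Dens

/-!
# JOB Vol: from Gaussian measure to volume, and the volume of the ball

`gam_real_le`: if `‖x‖² ≥ r` on the measurable set `A` then
`γ(A) = ∫_A (2π)^{-n/2} e^{-‖x‖²/2} dx ≤ (2π)^{-n/2} e^{-r/2} vol(A)` (`gam_eq`,
`withDensity_apply`, `setLIntegral_mono`, `setLIntegral_const`), for `vol A < ∞`.
`le_gam_real`: if `‖x‖² ≤ r` on the measurable set `A` then
`γ(A) ≥ (2π)^{-n/2} e^{-r/2} vol(A)`.
`volume_affine`: `vol {g | p + τ g ∈ K} = τ^{-n} vol K` for `τ > 0`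
(`Measure.addHaar_preimage_smul`, `measure_preimage_add`, `finrank_euclideanSpace_fin`).
`gam_real_mem_le`: `{g | p + τ g ∈ K} ⊆ {g | ‖g‖² ≤ r} ∪ ({g | p + τ g ∈ K} ∩ {g | r ≤ ‖g‖²})`,
then `gam_real_le` and `volume_affine`.
`kappa_le`: `1 ≥ γ(ball 0 √n) ≥ (2π)^{-n/2} e^{-n/2} vol(ball 0 √n)
= (2π)^{-n/2} e^{-n/2} (√n)^n κ_n` (`Measure.addHaar_ball`).
-/

open MeasureTheory ProbabilityTheory Set

namespace Pool.Agent.Lib.MP_e62723_gt.Asy

variable {n : ℕ}

theorem gam_real_le {A : Set (E n)} (hA : MeasurableSet A) (hfin : volume A ≠ ⊤) {r : ℝ}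
    (hr : ∀ x ∈ A, r ≤ ‖x‖ ^ 2) :
    (gam n).real A ≤ (2 * Real.pi) ^ (-((n : ℝ) / 2)) * Real.exp (-(r / 2)) * volume.real A := by
  have hc : (0 : ℝ) ≤ (2 * Real.pi) ^ (-((n : ℝ) / 2)) := by positivity
  have h1 : gam n A ≤ ENNReal.ofReal ((2 * Real.pi) ^ (-((n : ℝ) / 2)) * Real.exp (-(r / 2))) *
      volume A := by
    rw [gam_eq, withDensity_apply _ hA, ← setLIntegral_const]
    refine setLIntegral_mono measurable_const fun x hx => ENNReal.ofReal_le_ofReal ?_
    refine mul_le_mul_of_nonneg_left (Real.exp_le_exp.2 ?_) hc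
    have := hr x hx
    linarith
  have h2 := ENNReal.toReal_mono (ENNReal.mul_ne_top ENNReal.ofReal_ne_top hfin) h1
  rw [ENNReal.toReal_mul, ENNReal.toReal_ofReal (by positivity)] at h2
  exact h2

theorem le_gam_real {A : Set (E n)} (hA : MeasurableSet A) {r : ℝ}
    (hr : ∀ x ∈ A, ‖x‖ ^ 2 ≤ r) :
    (2 * Real.pi) ^ (-((n : ℝ) / 2)) * Real.exp (-(r / 2)) * volume.real A ≤ (gam n).real A := by
  have hc : (0 : ℝ) ≤ (2 * Real.pi) ^ (-((n : ℝ) / 2)) := by positivity
  have h1 : ENNReal.ofReal ((2 * Real.pi) ^ (-((n : ℝ) / 2)) * Real.exp (-(r / 2))) *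
      volume A ≤ gam n A := by
    rw [gam_eq, withDensity_apply _ hA, ← setLIntegral_const]
    refine setLIntegral_mono' hA fun x hx => ENNReal.ofReal_le_ofReal ?_
    refine mul_le_mul_of_nonneg_left (Real.exp_le_exp.2 ?_) hc
    have := hr x hx
    linarith
  have h2 := ENNReal.toReal_mono (measure_ne_top (gam n) A) h1
  rw [ENNReal.toReal_mul, ENNReal.toReal_ofReal (by positivity)] at h2
  exact h2

theorem volume_affine (K : Set (E n)) (p : E n) {τ : ℝ} (hτ : 0 < τ) :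
    volume {g : E n | p + τ • g ∈ K} = ENNReal.ofReal ((τ ^ n)⁻¹) * volume K := by
  have h1 : {g : E n | p + τ • g ∈ K} = (fun g : E n => τ • g) ⁻¹' ((fun x : E n => p + x) ⁻¹' K) := rfl
  rw [h1, Measure.addHaar_preimage_smul volume hτ.ne', measure_preimage_add, finrank_euclideanSpace_fin,
    abs_of_pos (by positivity)]

theorem gam_real_mem_le {K : Set (E n)} (hK : MeasurableSet K) (hfin : volume K ≠ ⊤) (p : E n)
    {τ : ℝ} (hτ : 0 < τ) (r : ℝ) :
    (gam n).real {g : E n | p + τ • g ∈ K} ≤ (gam n).real {g : E n | ‖g‖ ^ 2 ≤ r} +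
      (2 * Real.pi) ^ (-((n : ℝ) / 2)) * Real.exp (-(r / 2)) * ((τ ^ n)⁻¹ * volume.real K) := by
  have hSm : MeasurableSet {g : E n | p + τ • g ∈ K} := by
    have hcont : Continuous fun g : E n => p + τ • g := by fun_prop
    exact hcont.measurable hK
  have hRm : MeasurableSet {g : E n | r ≤ ‖g‖ ^ 2} :=
    measurableSet_le measurable_const (by fun_prop)
  have hvol := volume_affine K p hτ
  have hSfin : volume {g : E n | p + τ • g ∈ K} ≠ ⊤ := by
    rw [hvol]
    exact ENNReal.mul_ne_top ENNReal.ofReal_ne_top hfin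
  have hvolr : volume.real {g : E n | p + τ • g ∈ K} = (τ ^ n)⁻¹ * volume.real K := by
    rw [Measure.real, hvol, ENNReal.toReal_mul, ENNReal.toReal_ofReal (by positivity)]
    rfl
  have h1 : {g : E n | p + τ • g ∈ K} ⊆
      {g : E n | ‖g‖ ^ 2 ≤ r} ∪ ({g : E n | p + τ • g ∈ K} ∩ {g : E n | r ≤ ‖g‖ ^ 2}) := by
    intro g hg
    rcases le_total (‖g‖ ^ 2) r with h | h
    · exact Or.inl h
    · exact Or.inr ⟨hg, h⟩
  have h2 := (measureReal_mono (μ := gam n) h1).trans (measureReal_union_le _ _)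
  refine h2.trans (add_le_add le_rfl ?_)
  have h3 := gam_real_le (hSm.inter hRm)
    (ne_top_of_le_ne_top hSfin (measure_mono inter_subset_left)) (r := r) (fun x hx => hx.2)
  refine h3.trans (mul_le_mul_of_nonneg_left ?_ (by positivity))
  rw [← hvolr]
  exact measureReal_mono inter_subset_left hSfin

theorem kappa_le (n : ℕ) :
    (2 * Real.pi) ^ (-((n : ℝ) / 2)) * Real.exp (-((n : ℝ) / 2)) * ((√n) ^ n * kappa n) ≤ 1 := by
  rcases Nat.eq_zero_or_pos n with hn | hn
  · subst hn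
    have h1 := le_gam_real (n := 0) (A := Metric.ball (0 : E 0) 1) measurableSet_ball (r := 0) (by
      intro x _
      rw [Subsingleton.elim x 0, norm_zero]
      norm_num)
    have h2 := h1.trans measureReal_le_one
    have h3 : volume.real (Metric.ball (0 : E 0) 1) = kappa 0 := rfl
    rw [h3, Nat.cast_zero] at h2
    rw [pow_zero, one_mul, Nat.cast_zero]
    exact h2
  have hn0 : 0 < √(n : ℝ) := Real.sqrt_pos.2 (by exact_mod_cast hn)
  have h1 := le_gam_real (n := n) (A := Metric.ball (0 : E n) √n) measurableSet_ball (r := (n : ℝ)) (by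
    intro x hx
    rw [mem_ball_zero_iff] at hx
    calc ‖x‖ ^ 2 ≤ (√(n : ℝ)) ^ 2 := pow_le_pow_left₀ (norm_nonneg _) hx.le 2
      _ = n := Real.sq_sqrt (Nat.cast_nonneg n))
  have h2 : volume.real (Metric.ball (0 : E n) √n) = (√n) ^ n * kappa n := by
    rw [Measure.real, Measure.addHaar_ball_of_pos volume (0 : E n) hn0, ENNReal.toReal_mul,
      ENNReal.toReal_ofReal (by positivity), finrank_euclideanSpace_fin]
    rfl
  rw [h2] at h1
  exact h1.trans measureReal_le_one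

end Pool.Agent.Lib.MP_e62723_gt.Asy
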