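import Pool.Agent.Lib.MP_e62723_gt.Asy.Comb
import Pool.Agent.Lib.MP_e62723_gt.Asy.Vol
import Pool.Agent.Lib.MP_e62723_gt.Asy.Conc

/-!
# The volume of bodies of constant width

`vol_ge`: `prob_ge`, `gam_real_mem_le` with `τ = t/√n`, `r = (1-ε) n`, `tail_le`, and `kappa_le`:
put `δ = 1 - (2/(1-ρ²) + t²/ρ)/4`, `q = e^{-ε²/4}`, `G = (2π)^{-n/2} e^{-n/2} > 0`. Then
`δ ≤ q^n + G e^{εn/2} (√n)^n t^{-n} vol K`, and `G (√n)^n κ_n ≤ 1`, so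
`(δ - q^n) κ_n (t e^{-ε/2})^n ≤ G (√n)^n κ_n vol K ≤ vol K` (if `δ - q^n < 0` it is trivial).
`main`: given `c ≥ 0` with `c² < ρ(4 - 2/(1-ρ²))`, choose `t > c` with `t² < ρ(4 - 2/(1-ρ²))`, so
`δ > 0`, then `0 < ε < 1` with `c < c' := t e^{-ε/2}`; for large `n`, `q^n ≤ δ/2` and
`(δ/2) c'^n ≥ c^n` (as `(c/c')^n → 0`), so `vol K ≥ (δ/2) c'^n κ_n ≥ c^n κ_n`.
-/

open MeasureTheory ProbabilityTheory Set Filter

namespace Pool.Agent.Lib.MP_e62723_gt.Asy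

theorem kappa_nonneg (n : ℕ) : 0 ≤ kappa n := ENNReal.toReal_nonneg

theorem vol_ge {n : ℕ} (hn : 0 < n) {K : Set (E n)} (hK : IsConvexBody K)
    (hw : HasConstantWidth K 2) {ρ t ε : ℝ} (h0 : 0 < ρ) (h1 : ρ < 1) (ht : 0 < t)
    (he0 : 0 < ε) (he1 : ε < 1) :
    (1 - (2 / (1 - ρ ^ 2) + t ^ 2 / ρ) / 4 - Real.exp (-(ε ^ 2 / 4)) ^ n) *
      (t * Real.exp (-(ε / 2))) ^ n * kappa n ≤ volume.real K := by
  obtain ⟨p, hp⟩ := prob_ge hn hK hw h0 h1 ht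
  have hn' : (0 : ℝ) < n := by exact_mod_cast hn
  have hsn : 0 < √(n : ℝ) := Real.sqrt_pos.2 hn'
  have hτ : 0 < t / √(n : ℝ) := div_pos ht hsn
  have h2 := gam_real_mem_le hK.compact.measurableSet hK.compact.measure_lt_top.ne p hτ
    ((1 - ε) * n)
  have h3 := tail_le n he0 he1
  have h4 := kappa_le n
  set δ := 1 - (2 / (1 - ρ ^ 2) + t ^ 2 / ρ) / 4 with hδ
  set q := Real.exp (-(ε ^ 2 / 4)) with hq
  set P := (2 * Real.pi) ^ (-((n : ℝ) / 2)) with hP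
  have hPpos : 0 < P := by positivity
  set V := volume.real K with hV
  have hV0 : 0 ≤ V := measureReal_nonneg
  have hk0 := kappa_nonneg n
  -- rewrite
  have h5 : Real.exp (-((1 - ε) * n / 2)) =
      Real.exp (-((n : ℝ) / 2)) * (Real.exp (-(ε / 2)) ^ n)⁻¹ := by
    rw [← Real.exp_nat_mul, ← Real.exp_neg, ← Real.exp_add]
    congr 1
    ring
  have h6 : (((t / √(n : ℝ)) ^ n)⁻¹ : ℝ) = (√(n : ℝ)) ^ n * (t ^ n)⁻¹ := by
    rw [div_pow, inv_div, div_eq_mul_inv]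
  rw [h5, h6] at h2
  have hA : 0 < (t * Real.exp (-(ε / 2))) ^ n := by positivity
  have h7 : δ - q ^ n ≤ P * Real.exp (-((n : ℝ) / 2)) * (√(n : ℝ)) ^ n * V *
      ((t * Real.exp (-(ε / 2))) ^ n)⁻¹ := by
    have e1 : P * Real.exp (-((n : ℝ) / 2)) * (√(n : ℝ)) ^ n * V *
      ((t * Real.exp (-(ε / 2))) ^ n)⁻¹ = P * (Real.exp (-((n : ℝ) / 2)) *
        (Real.exp (-(ε / 2)) ^ n)⁻¹) * (√(n : ℝ) ^ n * (t ^ n)⁻¹ * V) := by
      rw [mul_pow, mul_inv]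
      ring
    rw [e1]
    linarith
  have h8 : (δ - q ^ n) * (t * Real.exp (-(ε / 2))) ^ n ≤
      P * Real.exp (-((n : ℝ) / 2)) * (√(n : ℝ)) ^ n * V := by
    have := mul_le_mul_of_nonneg_right h7 hA.le
    rwa [mul_assoc _ (_)⁻¹, inv_mul_cancel₀ hA.ne', mul_one] at this
  calc (δ - q ^ n) * (t * Real.exp (-(ε / 2))) ^ n * kappa n
      ≤ P * Real.exp (-((n : ℝ) / 2)) * (√(n : ℝ)) ^ n * V * kappa n :=
        mul_le_mul_of_nonneg_right h8 hk0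
    _ = (P * Real.exp (-((n : ℝ) / 2)) * ((√(n : ℝ)) ^ n * kappa n)) * V := by ring
    _ ≤ 1 * V := mul_le_mul_of_nonneg_right h4 hV0
    _ = V := one_mul _

theorem main {ρ c : ℝ} (h0 : 0 < ρ) (h1 : ρ < 1) (hc0 : 0 ≤ c)
    (hc : c ^ 2 < ρ * (4 - 2 / (1 - ρ ^ 2))) :
    ∃ N : ℕ, ∀ n ≥ N, ∀ K : Set (E n), IsConvexBody K → HasConstantWidth K 2 →
      c ^ n * kappa n ≤ volume.real K := by
  -- choose t
  obtain ⟨t, htc, ht2⟩ : ∃ t : ℝ, c < t ∧ t ^ 2 < ρ * (4 - 2 / (1 - ρ ^ 2)) := by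
    set Q := ρ * (4 - 2 / (1 - ρ ^ 2))
    have hQ : 0 ≤ Q := (sq_nonneg c).trans hc.le
    have h2 : c < √Q := (Real.lt_sqrt hc0).2 hc
    refine ⟨(c + √Q) / 2, by linarith, ?_⟩
    have h3 : (c + √Q) / 2 < √Q := by linarith
    have h4 : 0 ≤ (c + √Q) / 2 := by positivity
    calc ((c + √Q) / 2) ^ 2 < (√Q) ^ 2 := by gcongr
      _ = Q := Real.sq_sqrt hQ
  have ht : 0 < t := hc0.trans_lt htc
  set δ := 1 - (2 / (1 - ρ ^ 2) + t ^ 2 / ρ) / 4 with hδ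
  have hδ0 : 0 < δ := by
    have h2 : t ^ 2 / ρ < 4 - 2 / (1 - ρ ^ 2) := by
      rw [div_lt_iff₀ h0]
      linarith
    rw [hδ]
    linarith
  -- choose ε
  obtain ⟨ε, he0, he1, hε⟩ : ∃ ε : ℝ, 0 < ε ∧ ε < 1 ∧ c < t * Real.exp (-(ε / 2)) := by
    have hcont : Tendsto (fun ε : ℝ => t * Real.exp (-(ε / 2))) (nhdsWithin 0 (Set.Ioi 0))
        (nhds (t * Real.exp (-(0 / 2)))) := by
      apply Tendsto.mono_left _ nhdsWithin_le_nhds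
      apply Continuous.tendsto
      fun_prop
    have h2 : c < t * Real.exp (-(0 / 2)) := by simpa using htc
    have h3 := hcont.eventually (lt_mem_nhds h2)
    have h4 : ∀ᶠ ε : ℝ in nhdsWithin 0 (Set.Ioi 0), ε < 1 :=
      mem_nhdsWithin_of_mem_nhds (Iio_mem_nhds one_pos)
    have h5 : ∀ᶠ ε : ℝ in nhdsWithin 0 (Set.Ioi 0), 0 < ε := self_mem_nhdsWithin
    obtain ⟨ε, h6, h7, h8⟩ := (h3.and (h4.and h5)).exists
    exact ⟨ε, h8, h7, h6⟩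
  set q := Real.exp (-(ε ^ 2 / 4)) with hq
  have hq0 : 0 ≤ q := (Real.exp_pos _).le
  have hq1 : q < 1 := by
    rw [hq, Real.exp_lt_one_iff]
    have : 0 < ε ^ 2 := by positivity
    linarith
  set c' := t * Real.exp (-(ε / 2)) with hc'
  have hc'0 : 0 < c' := by positivity
  have hr : Tendsto (fun n : ℕ => (c / c') ^ n) atTop (nhds 0) :=
    tendsto_pow_atTop_nhds_zero_of_lt_one (by positivity) ((div_lt_one hc'0).2 hε)
  have hqt : Tendsto (fun n : ℕ => q ^ n) atTop (nhds 0) :=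
    tendsto_pow_atTop_nhds_zero_of_lt_one hq0 hq1
  have hδ2 : 0 < δ / 2 := by positivity
  have hev := (hr.eventually (gt_mem_nhds hδ2)).and
    ((hqt.eventually (gt_mem_nhds hδ2)).and (eventually_gt_atTop 0))
  obtain ⟨N, hN⟩ := eventually_atTop.1 hev
  refine ⟨N, fun n hn K hK hw => ?_⟩
  obtain ⟨h2, h3, h4⟩ := hN n hn
  have h5 := vol_ge h4 hK hw h0 h1 ht he0 he1
  rw [← hδ, ← hq, ← hc'] at h5
  refine le_trans ?_ h5
  apply mul_le_mul_of_nonneg_right _ (kappa_nonneg n)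
  have h6 : c ^ n = (c / c') ^ n * c' ^ n := by
    rw [← mul_pow, div_mul_cancel₀ _ hc'0.ne']
  rw [h6]
  apply mul_le_mul_of_nonneg_right _ (by positivity)
  linarith

theorem main_mW {ρ c : ℝ} (h0 : 0 < ρ) (h1 : ρ < 1) (hc0 : 0 ≤ c)
    (hc : c ^ 2 < ρ * (4 - 2 / (1 - ρ ^ 2))) :
    ∃ N : ℕ, ∀ n ≥ N, c ^ n * kappa n ≤ mW n := by
  obtain ⟨N, hN⟩ := main h0 h1 hc0 hc
  refine ⟨N, fun n hn => ?_⟩
  obtain ⟨K, hK, hw⟩ := exists_body n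
  refine le_csInf ⟨(volume K).toReal, K, hK, hw, rfl⟩ ?_
  rintro v ⟨K', hK', hw', rfl⟩
  exact hN n hn K' hK' hw'

/-- The case `ρ = 117/250`. -/
theorem main_082 : ∃ N : ℕ, ∀ n ≥ N, (0.82 : ℝ) ^ n * kappa n ≤ mW n := by
  apply main_mW (ρ := 0.468)
  · norm_num
  · norm_num
  · norm_num
  · norm_num

end Pool.Agent.Lib.MP_e62723_gt.Asy
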