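import Pool.Agent.Lib.MP_e62723_gt.Asy.Rot

/-!
# JOB Noise: basic properties of the noise operator `T n a`

Everything for bounded measurable functions and `a² ≤ 1`. Write `s = √(1 - a²)`, so `a² + s² = 1`
(`Real.sq_sqrt`).
`T_measurable`: `(x, z) ↦ f (a • x + s • z)` is measurable, hence strongly measurable;
`StronglyMeasurable.integral_prod_right'` and `.measurable`.
`T_bdd`: `norm_integral_le_of_norm_le_const`, `gam n` is a probability measure.
`integral_mul_T`: `T n a g x` times the constant `f x` under the integral, then Fubini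
(`integral_prod`), the integrand on the product being bounded and measurable, hence integrable.
`T_symm`: both sides by `integral_mul_T` (with `mul_comm`) are `∫ f(q.1) g(a q.1 + s q.2)` and
`∫ g(q.1) f(a q.1 + s q.2)`, equal by `map_swap` and `integral_map` (applied to the function
`(u, v) ↦ f u * g v`, resp. the same function after the swap).
`integral_T`: `T_symm` with `g = 1` (or `map_lin`); `T n a 1 = 1`.
`T_T`: `T n a (T n a f) x = ∫∫ f (a • (a • x + s • z) + s • w) dγ(w) dγ(z)
 = ∫ f (a² • x + (a s • z + s • w))`, Fubini, then `map_lin'` with the pair `(a s, s)`: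
`(a s)² + s² = s² (1 + a²) = 1 - a⁴ = 1 - (a²)²`.
`T_comp_neg`: change of variables `z ↦ -z` (`map_neg`).
`T_neg`: `(-a)² = a²`, `-a • x = a • (-x)`.
-/

open MeasureTheory ProbabilityTheory

namespace Pool.Agent.Lib.MP_e62723_gt.Asy

variable {n : ℕ}

private theorem Noise_lin (n : ℕ) (a s : ℝ) :
    Measurable (fun q : E n × E n => a • q.1 + s • q.2) :=
  (measurable_fst.const_smul a).add (measurable_snd.const_smul s)

private theorem Noise_smul (n : ℕ) (s : ℝ) : Measurable (fun w : E n => s • w) :=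
  measurable_id.const_smul s

private theorem Noise_shift (n : ℕ) (y : E n) : Measurable (fun w : E n => y + w) :=
  measurable_id.const_add y

private theorem Noise_meas {a s : ℝ} {f : E n → ℝ} (hf : Measurable f) :
    Measurable (fun q : E n × E n => f (a • q.1 + s • q.2)) :=
  hf.comp (Noise_lin n a s)

private theorem Noise_integrable {α : Type*} [MeasurableSpace α] {μ : Measure α} [IsFiniteMeasure μ]
    {F : α → ℝ} (hF : Measurable F) {C : ℝ} (hC : ∀ x, |F x| ≤ C) : Integrable F μ :=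
  Integrable.of_bound hF.aestronglyMeasurable C (Filter.Eventually.of_forall fun x => by
    rw [Real.norm_eq_abs]
    exact hC x)

private theorem Noise_sq {a : ℝ} (ha : a ^ 2 ≤ 1) : a ^ 2 + √(1 - a ^ 2) ^ 2 = 1 := by
  rw [Real.sq_sqrt (by linarith)]
  ring

theorem T_measurable {a : ℝ} {f : E n → ℝ} (hf : Measurable f) : Measurable (T n a f) := by
  have h : StronglyMeasurable (fun q : E n × E n => f (a • q.1 + √(1 - a ^ 2) • q.2)) :=
    (Noise_meas hf).stronglyMeasurable
  exact (h.integral_prod_right' (ν := gam n)).measurable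

theorem T_bdd {a C : ℝ} {f : E n → ℝ} (hC : ∀ x, |f x| ≤ C) (x : E n) : |T n a f x| ≤ C := by
  have h := norm_integral_le_of_norm_le_const (μ := gam n)
    (f := fun z => f (a • x + √(1 - a ^ 2) • z)) (C := C)
    (Filter.Eventually.of_forall fun z => by
      rw [Real.norm_eq_abs]
      exact hC _)
  rw [Real.norm_eq_abs, probReal_univ, mul_one] at h
  exact h

theorem integral_mul_T {a C D : ℝ} {f g : E n → ℝ} (hf : Measurable f) (hg : Measurable g)
    (hC : ∀ x, |f x| ≤ C) (hD : ∀ x, |g x| ≤ D) :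
    ∫ x, f x * T n a g x ∂(gam n) =
      ∫ q : E n × E n, f q.1 * g (a • q.1 + √(1 - a ^ 2) • q.2) ∂((gam n).prod (gam n)) := by
  have hint : Integrable (fun q : E n × E n => f q.1 * g (a • q.1 + √(1 - a ^ 2) • q.2))
      ((gam n).prod (gam n)) := by
    refine Noise_integrable (C := C * D) ((hf.comp measurable_fst).mul (Noise_meas hg)) ?_
    intro q
    rw [abs_mul]
    exact mul_le_mul (hC _) (hD _) (abs_nonneg _) ((abs_nonneg _).trans (hC q.1))
  rw [integral_prod _ hint]
  refine integral_congr_ae (Filter.Eventually.of_forall fun x => ?_)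
  show f x * T n a g x = ∫ z, f x * g (a • x + √(1 - a ^ 2) • z) ∂(gam n)
  rw [integral_const_mul]
  rfl

theorem T_symm {a C D : ℝ} (ha : a ^ 2 ≤ 1) {f g : E n → ℝ} (hf : Measurable f)
    (hg : Measurable g) (hC : ∀ x, |f x| ≤ C) (hD : ∀ x, |g x| ≤ D) :
    ∫ x, f x * T n a g x ∂(gam n) = ∫ x, T n a f x * g x ∂(gam n) := by
  have h1 := integral_mul_T (a := a) hf hg hC hD
  have h2 := integral_mul_T (a := a) hg hf hD hC
  have h3 : ∫ x, T n a f x * g x ∂(gam n) = ∫ x, g x * T n a f x ∂(gam n) := by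
    refine integral_congr_ae (Filter.Eventually.of_forall fun x => ?_)
    exact mul_comm _ _
  rw [h1, h3, h2]
  have hsw := map_swap n (Noise_sq ha)
  have hF : Measurable (fun u : E n × E n => f u.1 * g u.2) :=
    (hf.comp measurable_fst).mul (hg.comp measurable_snd)
  have hlin : Measurable (fun q : E n × E n => a • q.1 + √(1 - a ^ 2) • q.2) :=
    Noise_lin n a _
  have hm1 : Measurable (fun q : E n × E n => (a • q.1 + √(1 - a ^ 2) • q.2, q.1)) :=
    hlin.prodMk measurable_fst
  have hm2 : Measurable (fun q : E n × E n => (q.1, a • q.1 + √(1 - a ^ 2) • q.2)) :=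
    measurable_fst.prodMk hlin
  have e1 := integral_map (μ := (gam n).prod (gam n)) hm1.aemeasurable
    (f := fun u : E n × E n => f u.1 * g u.2) hF.aestronglyMeasurable
  have e2 := integral_map (μ := (gam n).prod (gam n)) hm2.aemeasurable
    (f := fun u : E n × E n => f u.1 * g u.2) hF.aestronglyMeasurable
  rw [hsw] at e1
  have e3 := e2.symm.trans e1
  rw [e3]
  refine integral_congr_ae (Filter.Eventually.of_forall fun q => ?_)
  exact mul_comm _ _

private theorem Noise_TT_aux {a s C : ℝ} {f : E n → ℝ} (hf : Measurable f) (hC : ∀ x, |f x| ≤ C)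
    (x : E n) : ∫ z, ∫ w, f (a • (a • x + s • z) + s • w) ∂(gam n) ∂(gam n) =
      ∫ w, f (a ^ 2 • x + √((a * s) ^ 2 + s ^ 2) • w) ∂(gam n) := by
  have h2 : ∀ z w : E n, f (a • (a • x + s • z) + s • w) =
      f (a ^ 2 • x + ((a * s) • z + s • w)) := by
    intro z w
    congr 1
    rw [smul_add, smul_smul, smul_smul, ← sq, add_assoc]
  have hm4 : Measurable (fun w : E n => f (a ^ 2 • x + w)) := hf.comp (Noise_shift n _)
  have hm3 : Measurable (fun q : E n × E n => (a * s) • q.1 + s • q.2) := Noise_lin n _ _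
  have hm5 : Measurable (fun w : E n => √((a * s) ^ 2 + s ^ 2) • w) := Noise_smul n _
  have hmeas : Measurable (fun q : E n × E n => f (a ^ 2 • x + ((a * s) • q.1 + s • q.2))) :=
    hm4.comp hm3
  have hint : Integrable (fun q : E n × E n => f (a ^ 2 • x + ((a * s) • q.1 + s • q.2)))
      ((gam n).prod (gam n)) :=
    Noise_integrable hmeas (fun q => hC _)
  have e1 : ∫ z, ∫ w, f (a • (a • x + s • z) + s • w) ∂(gam n) ∂(gam n) =
      ∫ z, ∫ w, f (a ^ 2 • x + ((a * s) • z + s • w)) ∂(gam n) ∂(gam n) := by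
    simp_rw [h2]
  have e2 : ∫ q : E n × E n, f (a ^ 2 • x + ((a * s) • q.1 + s • q.2)) ∂((gam n).prod (gam n)) =
      ∫ z, ∫ w, f (a ^ 2 • x + ((a * s) • z + s • w)) ∂(gam n) ∂(gam n) := integral_prod _ hint
  have e3 : ∫ v, f (a ^ 2 • x + v) ∂(((gam n).prod (gam n)).map
      (fun q : E n × E n => (a * s) • q.1 + s • q.2)) =
      ∫ q : E n × E n, f (a ^ 2 • x + ((a * s) • q.1 + s • q.2)) ∂((gam n).prod (gam n)) :=
    integral_map hm3.aemeasurable hm4.aestronglyMeasurable
  have e4 : ∫ v, f (a ^ 2 • x + v) ∂((gam n).map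
      (fun w : E n => √((a * s) ^ 2 + s ^ 2) • w)) =
      ∫ w, f (a ^ 2 • x + √((a * s) ^ 2 + s ^ 2) • w) ∂(gam n) :=
    integral_map hm5.aemeasurable hm4.aestronglyMeasurable
  rw [e1, ← e2, ← e3, map_lin' n, e4]

theorem T_T {a C : ℝ} (ha : a ^ 2 ≤ 1) {f : E n → ℝ} (hf : Measurable f) (hC : ∀ x, |f x| ≤ C)
    (x : E n) : T n a (T n a f) x = T n (a ^ 2) f x := by
  have hs0 : 0 ≤ 1 - a ^ 2 := by linarith
  have h3 : √((a * √(1 - a ^ 2)) ^ 2 + √(1 - a ^ 2) ^ 2) = √(1 - (a ^ 2) ^ 2) := by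
    congr 1
    rw [mul_pow, Real.sq_sqrt hs0]
    ring
  have h := Noise_TT_aux (a := a) (s := √(1 - a ^ 2)) hf hC x
  rw [h3] at h
  exact h

theorem integral_T {a C : ℝ} (ha : a ^ 2 ≤ 1) {f : E n → ℝ} (hf : Measurable f)
    (hC : ∀ x, |f x| ≤ C) : ∫ x, T n a f x ∂(gam n) = ∫ x, f x ∂(gam n) := by
  have h := T_symm ha (f := fun _ : E n => (1 : ℝ)) measurable_const hf (C := 1) (D := C)
    (fun x => by simp) hC
  have h1 : ∀ x : E n, T n a (fun _ : E n => (1 : ℝ)) x = 1 := by
    intro x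
    unfold T
    rw [integral_const, probReal_univ, one_smul]
  simp_rw [h1, one_mul] at h
  exact h

theorem T_comp_neg {a : ℝ} (f : E n → ℝ) (x : E n) :
    T n a (fun y => f (-y)) x = T n a f (-x) := by
  unfold T
  have h1 : ∀ z : E n, f (-(a • x + √(1 - a ^ 2) • z)) =
      (fun w : E n => f (a • (-x) + √(1 - a ^ 2) • w)) (-z) := by
    intro z
    show _ = f (a • (-x) + √(1 - a ^ 2) • (-z))
    congr 1
    rw [smul_neg, smul_neg, neg_add]
  simp_rw [h1]
  have hemb : MeasurableEmbedding (fun z : E n => -z) :=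
    (MeasurableEquiv.neg (E n)).measurableEmbedding
  rw [← hemb.integral_map (μ := gam n) (fun w : E n => f (a • (-x) + √(1 - a ^ 2) • w)),
    map_neg n]

theorem T_neg {a : ℝ} (f : E n → ℝ) (x : E n) : T n (-a) f x = T n a f (-x) := by
  unfold T
  refine integral_congr_ae (Filter.Eventually.of_forall fun z => ?_)
  show f ((-a) • x + √(1 - (-a) ^ 2) • z) = f (a • (-x) + √(1 - a ^ 2) • z)
  rw [neg_sq, neg_smul, smul_neg]

end Pool.Agent.Lib.MP_e62723_gt.Asy
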