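import Pool.Agent.Lib.MP_e62723_gt.Asy.Geo

/-!
# The function `ψ_K` and the farthest point map

`K` compact and nonempty throughout, `K ⊆ closedBall 0 R`.
`le_psi`, `exists_psi_eq`: `x ↦ ‖x‖²/2 - ⟪x,y⟫` is continuous on the compact set `K`.
`psi_lip`: for the maximiser `x` of `psi K y`:
`psi K y = ‖x‖²/2 - ⟪x,y⟫ = (‖x‖²/2 - ⟪x,y'⟫) + ⟪x, y'-y⟫ ≤ psi K y' + R ‖y - y'‖`, and symmetrically
(`LipschitzWith.of_dist_le_mul`, `NNReal`).
`inner_eq_of_differentiableAt` (the envelope theorem): let `ψ = psi K` be differentiable at `y`,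
let `x ∈ K` be a maximiser at `y`. The function `y' ↦ ψ(y') - (‖x‖²/2 - ⟪x,y'⟫)` is `≥ 0`, and `= 0`
at `y`, so it has a local minimum at `y`, and its derivative there, `fderiv ℝ ψ y + ⟪x,·⟫`,
vanishes (`IsLocalMin.fderiv_eq_zero` or `IsLocalMin.hasFDerivAt_eq_zero`). So
`far K y = -(toDual).symm (fderiv ..) = x`.
`far_measurable`: `measurable_fderiv`, continuity of `(toDual).symm`.
`norm_far_le`: at a point of differentiability `far K y ∈ K`; otherwise `fderiv = 0`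
(`fderiv_zero_of_not_differentiableAt`) and `far K y = 0`.
`ae_differentiableAt`: Rademacher, `LipschitzWith.ae_differentiableAt (μ := volume)`.
`norm_far_sub_sq`: `‖far K y - y‖² = ‖x‖² - 2⟪x,y⟫ + ‖y‖² = ‖y‖² + 2 ψ(y)`.
`mem_of_psi_le`: if `y ∉ K` then by `exists_far` there is `x ∈ K`, `‖x - y‖ > 2`, and
`‖y‖² + 2ψ(y) ≥ ‖y‖² + ‖x‖² - 2⟪x,y⟫ = ‖x - y‖² > 4`.
-/

open MeasureTheory Set

namespace Pool.Agent.Lib.MP_e62723_gt.Asy

variable {n : ℕ} {K : Set (E n)}

private theorem Psi_contOn (K : Set (E n)) (y : E n) :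
    ContinuousOn (fun x : E n => ‖x‖ ^ 2 / 2 - inner ℝ x y) K := by
  apply Continuous.continuousOn
  fun_prop

theorem le_psi (hK : IsCompact K) {x : E n} (hx : x ∈ K) (y : E n) :
    ‖x‖ ^ 2 / 2 - inner ℝ x y ≤ psi K y := by
  unfold psi
  exact le_csSup (hK.image_of_continuousOn (Psi_contOn K y)).bddAbove ⟨x, hx, rfl⟩

theorem exists_psi_eq (hK : IsCompact K) (hne : K.Nonempty) (y : E n) :
    ∃ x ∈ K, psi K y = ‖x‖ ^ 2 / 2 - inner ℝ x y :=
  hK.exists_sSup_image_eq hne (Psi_contOn K y)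

private theorem Psi_one (hK : IsCompact K) (hne : K.Nonempty) {R : ℝ} (hR : ∀ x ∈ K, ‖x‖ ≤ R)
    (y y' : E n) : psi K y - psi K y' ≤ R * ‖y - y'‖ := by
  obtain ⟨x, hx, h⟩ := exists_psi_eq hK hne y
  have h2 := le_psi hK hx y'
  have h3 : inner ℝ x (y' - y) ≤ R * ‖y - y'‖ := by
    refine (real_inner_le_norm _ _).trans ?_
    rw [norm_sub_rev]
    exact mul_le_mul_of_nonneg_right (hR x hx) (norm_nonneg _)
  rw [inner_sub_right] at h3
  linarith

theorem psi_lip (hK : IsCompact K) (hne : K.Nonempty) {R : ℝ} (hR : ∀ x ∈ K, ‖x‖ ≤ R)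
    (y y' : E n) : |psi K y - psi K y'| ≤ R * ‖y - y'‖ := by
  rw [abs_le]
  have h1 := Psi_one hK hne hR y y'
  have h2 := Psi_one hK hne hR y' y
  rw [norm_sub_rev] at h2
  constructor <;> linarith

private theorem Psi_far_eq (hK : IsCompact K) {y x : E n}
    (hd : DifferentiableAt ℝ (psi K) y) (hx : x ∈ K) (h : psi K y = ‖x‖ ^ 2 / 2 - inner ℝ x y) :
    far K y = x := by
  have h1 : HasFDerivAt (fun y' : E n => ‖x‖ ^ 2 / 2 - inner ℝ x y')
      (-(innerSL ℝ x)) y := by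
    have h2 : HasFDerivAt (fun y' : E n => inner ℝ x y') (innerSL ℝ x) y :=
      (innerSL ℝ x).hasFDerivAt
    exact h2.const_sub _
  have h3 : HasFDerivAt (fun y' : E n => psi K y' - (‖x‖ ^ 2 / 2 - inner ℝ x y'))
      (fderiv ℝ (psi K) y - -(innerSL ℝ x)) y := hd.hasFDerivAt.sub h1
  have h4 : IsLocalMin (fun y' : E n => psi K y' - (‖x‖ ^ 2 / 2 - inner ℝ x y')) y := by
    apply Filter.Eventually.of_forall
    intro y'
    have := le_psi hK hx y'
    simp only [h]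
    linarith
  have h5 := h4.hasFDerivAt_eq_zero h3
  have h6 : fderiv ℝ (psi K) y = -(innerSL ℝ x) := by
    rwa [sub_eq_zero] at h5
  unfold far
  rw [h6]
  have h7 : (-(innerSL ℝ x) : E n →L[ℝ] ℝ) = (InnerProductSpace.toDual ℝ (E n)) (-x) := by
    ext v
    simp
  rw [h7, LinearIsometryEquiv.symm_apply_apply, neg_neg]

theorem far_spec (hK : IsCompact K) (hne : K.Nonempty) {y : E n}
    (hd : DifferentiableAt ℝ (psi K) y) :
    far K y ∈ K ∧ psi K y = ‖far K y‖ ^ 2 / 2 - inner ℝ (far K y) y := by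
  obtain ⟨x, hx, h⟩ := exists_psi_eq hK hne y
  rw [Psi_far_eq hK hd hx h]
  exact ⟨hx, h⟩

theorem far_measurable (K : Set (E n)) : Measurable (far K) := by
  unfold far
  have h1 : Measurable (fderiv ℝ (psi K)) := measurable_fderiv ℝ (psi K)
  exact ((InnerProductSpace.toDual ℝ (E n)).symm.continuous.measurable.comp h1).neg

theorem norm_far_le (hK : IsCompact K) (hne : K.Nonempty) {R : ℝ} (hR : ∀ x ∈ K, ‖x‖ ≤ R)
    (y : E n) : ‖far K y‖ ≤ R := by
  by_cases hd : DifferentiableAt ℝ (psi K) y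
  · exact hR _ (far_spec hK hne hd).1
  · unfold far
    rw [fderiv_zero_of_not_differentiableAt hd]
    simp only [map_zero, neg_zero, norm_zero]
    obtain ⟨x, hx⟩ := hne
    exact (norm_nonneg x).trans (hR x hx)

theorem ae_differentiableAt (hK : IsCompact K) (hne : K.Nonempty) :
    ∀ᵐ y ∂(volume : Measure (E n)), DifferentiableAt ℝ (psi K) y := by
  obtain ⟨R, hR⟩ := hK.isBounded.exists_norm_le
  have hR0 : 0 ≤ max R 0 := le_max_right _ _
  have : LipschitzWith ⟨max R 0, hR0⟩ (psi K) := by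
    apply LipschitzWith.of_dist_le_mul
    intro x y
    rw [Real.dist_eq, dist_eq_norm]
    exact psi_lip hK hne (fun x hx => (hR x hx).trans (le_max_left _ _)) x y
  exact this.ae_differentiableAt

theorem norm_far_sub_sq (hK : IsCompact K) (hne : K.Nonempty) {y : E n}
    (hd : DifferentiableAt ℝ (psi K) y) : ‖far K y - y‖ ^ 2 = ‖y‖ ^ 2 + 2 * psi K y := by
  rw [(far_spec hK hne hd).2, norm_sub_sq_real]
  ring

theorem mem_of_psi_le (hK : IsConvexBody K) (hw : HasConstantWidth K 2) {y : E n}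
    (hy : ‖y‖ ^ 2 + 2 * psi K y ≤ 4) : y ∈ K := by
  by_contra hyK
  obtain ⟨x, hx, hxy⟩ := exists_far hK hw hyK
  have h1 := le_psi hK.compact hx y
  have h2 := norm_sub_sq_real x y
  have h3 : (4 : ℝ) < ‖x - y‖ ^ 2 := by nlinarith
  linarith

end Pool.Agent.Lib.MP_e62723_gt.Asy
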