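import Pool.Agent.Lib.MP_e62723_gt.Asy.Defs

/-!
# JOB Rot: rotation invariance of `γ ⊗ γ`

Proofs.
`exists_angle`: for `a² + b² = 1` there is `θ` with `cos θ = a`, `sin θ = b` (e.g.
`θ = Complex.arg (a + b i)`, `Complex.cos_arg`, `Complex.sin_arg`).
`map_rot`: `ProbabilityTheory.IsGaussian.map_rotation_eq_self (hμ : μ[id] = 0) θ :
(μ.prod μ).map (ContinuousLinearMap.rotation θ) = μ.prod μ` (Mathlib, Fernique.lean), with
`ContinuousLinearMap.rotation_apply : rotation θ x = (cos θ • x.1 + sin θ • x.2,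
-sin θ • x.1 + cos θ • x.2)` and `integral_id_stdGaussian`.
`map_lin`: push `map_rot` forward by `Prod.fst` (`Measure.map_fst_prod`, total mass one).
`map_neg`: `map_lin` with `a = -1`, `b = 0`, or `stdGaussian_map (LinearIsometryEquiv.neg ℝ)`.
`map_lin'`: if `s = √(a²+b²) = 0` then `a = b = 0` and both sides are the Dirac measure at `0`;
otherwise apply `map_lin` to `a/s, b/s` and push forward by `w ↦ s • w` (`Measure.map_map`).
`map_swap`: let `R(x,z) = (a x + b z, b x - a z)`. It preserves `γ ⊗ γ` (it is `map_rot` followed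
by `(u,v) ↦ (u,-v)`, since `b x - a z = -(-b x + a z)`; the map `(u,v) ↦ (u,-v)` preserves
`γ ⊗ γ` by `Measure.map_prod_map` and `map_neg`). Let `G(x,z) = (x, a x + b z)`. Then
`G(R(x,z)) = (a x + b z, a(ax+bz) + b(bx-az)) = (a x + b z, x)`. Hence
`map (fun q => (a q.1 + b q.2, q.1)) (γ⊗γ) = map (G ∘ R) (γ⊗γ) = map G (γ⊗γ)`.
-/

open MeasureTheory ProbabilityTheory

namespace Pool.Agent.Lib.MP_e62723_gt.Asy

theorem exists_angle {a b : ℝ} (h : a ^ 2 + b ^ 2 = 1) :
    ∃ θ : ℝ, Real.cos θ = a ∧ Real.sin θ = b := by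
  have h1 : ‖(⟨a, b⟩ : ℂ)‖ = 1 := by
    rw [Complex.norm_def, Complex.normSq_mk, ← pow_two, ← pow_two, h, Real.sqrt_one]
  have h0 : (⟨a, b⟩ : ℂ) ≠ 0 := by
    intro h2
    rw [h2, norm_zero] at h1
    exact zero_ne_one h1
  refine ⟨Complex.arg ⟨a, b⟩, ?_, ?_⟩
  · rw [Complex.cos_arg h0, h1, div_one]
  · rw [Complex.sin_arg, h1, div_one]

theorem map_rot (n : ℕ) {a b : ℝ} (h : a ^ 2 + b ^ 2 = 1) :
    ((gam n).prod (gam n)).map (fun q : E n × E n => (a • q.1 + b • q.2, -b • q.1 + a • q.2)) =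
      (gam n).prod (gam n) := by
  obtain ⟨θ, hc, hs⟩ := exists_angle h
  have h1 : (gam n)[id] = 0 := integral_id_stdGaussian (E := E n)
  have h2 := IsGaussian.map_rotation_eq_self h1 θ
  rw [← hc, ← hs]
  exact h2

theorem map_lin (n : ℕ) {a b : ℝ} (h : a ^ 2 + b ^ 2 = 1) :
    ((gam n).prod (gam n)).map (fun q : E n × E n => a • q.1 + b • q.2) = gam n := by
  have h1 : (fun q : E n × E n => a • q.1 + b • q.2) =
      Prod.fst ∘ (fun q : E n × E n => (a • q.1 + b • q.2, -b • q.1 + a • q.2)) := rfl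
  rw [h1, ← Measure.map_map measurable_fst (by fun_prop), map_rot n h, Measure.map_fst_prod,
    measure_univ, one_smul]

theorem map_neg (n : ℕ) : (gam n).map (fun x : E n => -x) = gam n := by
  have h1 := map_lin n (a := -1) (b := 0) (by norm_num)
  have h2 : (fun q : E n × E n => (-1 : ℝ) • q.1 + (0 : ℝ) • q.2) =
      (fun x : E n => -x) ∘ Prod.fst := by
    funext q
    simp
  rw [h2, ← Measure.map_map (by fun_prop) measurable_fst, Measure.map_fst_prod, measure_univ,
    one_smul] at h1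
  exact h1

theorem map_lin' (n : ℕ) (a b : ℝ) :
    ((gam n).prod (gam n)).map (fun q : E n × E n => a • q.1 + b • q.2) =
      (gam n).map (fun w : E n => √(a ^ 2 + b ^ 2) • w) := by
  obtain ⟨s, hs⟩ : ∃ s, s = √(a ^ 2 + b ^ 2) := ⟨_, rfl⟩
  rw [← hs]
  have hs2 : s ^ 2 = a ^ 2 + b ^ 2 := by
    rw [hs]
    exact Real.sq_sqrt (by positivity)
  rcases eq_or_ne s 0 with h0 | h0
  · have ha : a = 0 := by
      rw [h0] at hs2
      nlinarith [sq_nonneg a, sq_nonneg b]
    have hb : b = 0 := by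
      rw [h0] at hs2
      nlinarith [sq_nonneg a, sq_nonneg b]
    have h1 : (fun q : E n × E n => a • q.1 + b • q.2) = fun _ => 0 := by
      funext q
      rw [ha, hb, zero_smul, zero_smul, add_zero]
    have h2 : (fun w : E n => s • w) = fun _ => 0 := by
      funext q
      rw [h0, zero_smul]
    rw [h1, h2, Measure.map_const, Measure.map_const, measure_univ, measure_univ]
  · have h1 : (fun q : E n × E n => a • q.1 + b • q.2) =
        (fun w : E n => s • w) ∘ (fun q : E n × E n => (a / s) • q.1 + (b / s) • q.2) := by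
      funext q
      simp only [Function.comp_apply]
      rw [smul_add, smul_smul, smul_smul, mul_div_cancel₀ _ h0, mul_div_cancel₀ _ h0]
    rw [h1, ← Measure.map_map (by fun_prop) (by fun_prop), map_lin n]
    rw [div_pow, div_pow, ← add_div, ← hs2]
    exact div_self (pow_ne_zero 2 h0)

theorem map_swap (n : ℕ) {a b : ℝ} (h : a ^ 2 + b ^ 2 = 1) :
    ((gam n).prod (gam n)).map (fun q : E n × E n => (a • q.1 + b • q.2, q.1)) =
      ((gam n).prod (gam n)).map (fun q : E n × E n => (q.1, a • q.1 + b • q.2)) := by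
  have hR : ((gam n).prod (gam n)).map
      (fun q : E n × E n => (a • q.1 + b • q.2, b • q.1 - a • q.2)) = (gam n).prod (gam n) := by
    have h1 : (fun q : E n × E n => (a • q.1 + b • q.2, b • q.1 - a • q.2)) =
        (Prod.map id (fun x : E n => -x)) ∘
          (fun q : E n × E n => (a • q.1 + b • q.2, -b • q.1 + a • q.2)) := by
      funext q
      simp only [Function.comp_apply, Prod.map_apply, id_eq]
      congr 1
      rw [neg_add, neg_smul, neg_neg, sub_eq_add_neg]
    rw [h1, ← Measure.map_map (by fun_prop) (by fun_prop), map_rot n h,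
      ← Measure.map_prod_map _ _ measurable_id (by fun_prop), Measure.map_id, map_neg]
  have h2 : (fun q : E n × E n => (a • q.1 + b • q.2, q.1)) =
      (fun q : E n × E n => (q.1, a • q.1 + b • q.2)) ∘
        (fun q : E n × E n => (a • q.1 + b • q.2, b • q.1 - a • q.2)) := by
    funext q
    simp only [Function.comp_apply]
    congr 1
    rw [smul_add, smul_sub, smul_smul, smul_smul, smul_smul, smul_smul, mul_comm b a]
    have h3 : q.1 = (a * a + b * b) • q.1 := by
      rw [← pow_two, ← pow_two, h, one_smul]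
    nth_rw 1 [h3]
    rw [add_smul]
    abel
  rw [h2, ← Measure.map_map (by fun_prop) (by fun_prop), hR]

end Pool.Agent.Lib.MP_e62723_gt.Asy
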