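import Pool.Agent.Lib.MP_e62723_gt.Asy.Gap
import Pool.Agent.Lib.MP_e62723_gt.Asy.Coord

/-!
# JOB Scalar: the inequality for negatively correlated pairs, scalar case

Let `f` be bounded, measurable, `∫ f = 0`. Put `e(x) = (f x + f(-x))/2`, `o(x) = (f x - f(-x))/2`:
even resp. odd, bounded by `C`, measurable, `f = e + o`, `∫ e = 0` (`map_neg`), and for bounded
measurable `u` even and `v` odd, `∫ u v = 0` (change of variables `x ↦ -x`).
`T n (-ρ) f x = T n ρ f (-x)` (`T_neg`) `= T n ρ e (-x) + T n ρ o (-x) = T n ρ e x - T n ρ o x`,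
since `T n ρ e` is even and `T n ρ o` is odd (`T_comp_neg`, linearity of `T`). So
`∫ f T_{-ρ} f = ∫ e T_ρ e - ∫ o T_ρ o` (the mixed terms vanish by parity)
`≤ ρ² ∫ e² - ∫ (T_{√ρ} o)²` (`gap`, `T_energy` with `a = √ρ`)
`≤ ρ² ∫ e² - Σ_j (∫ (T_{√ρ} o) x_j)²` (`bessel`)
`= ρ² ∫ e² - ρ Σ_j (∫ o x_j)²` (`T_coord`)
`= ρ² ∫ f² - ρ² ∫ o² - ρ Σ_j (∫ o x_j)²` (`∫ f² = ∫ e² + ∫ o²`)
`≤ ρ² ∫ f² - (ρ² + ρ) Σ_j (∫ o x_j)²` (`bessel`)
and `∫ o x_j = ∫ f x_j` since `∫ e x_j = 0` (`e x_j` is odd).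
-/

open MeasureTheory ProbabilityTheory

namespace Pool.Agent.Lib.MP_e62723_gt.Asy

variable {n : ℕ}

private theorem Scalar_int {C : ℝ} {u : E n → ℝ} (hu : Measurable u) (hC : ∀ x, |u x| ≤ C) :
    Integrable u (gam n) :=
  Integrable.of_bound hu.aestronglyMeasurable C
    (Filter.Eventually.of_forall (fun x => by rw [Real.norm_eq_abs]; exact hC x))

private theorem Scalar_int_mul {C D : ℝ} {u v : E n → ℝ} (hu : Measurable u) (hv : Measurable v)
    (hC : ∀ x, |u x| ≤ C) (hD : ∀ x, |v x| ≤ D) :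
    Integrable (fun x => u x * v x) (gam n) := by
  refine Scalar_int (C := C * D) (hu.mul hv) (fun x => ?_)
  rw [abs_mul]
  exact mul_le_mul (hC x) (hD x) (abs_nonneg _) ((abs_nonneg _).trans (hC x))

private theorem Scalar_int_coord {C : ℝ} {u : E n → ℝ} (hu : Measurable u)
    (hC : ∀ x, |u x| ≤ C) (j : Fin n) :
    Integrable (fun x : E n => u x * x j) (gam n) := by
  refine (integrable_coord j).bdd_mul (c := C) hu.aestronglyMeasurable ?_
  exact Filter.Eventually.of_forall (fun x => by rw [Real.norm_eq_abs]; exact hC x)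

theorem T_add {a C D : ℝ} {f g : E n → ℝ} (hf : Measurable f) (hg : Measurable g)
    (hC : ∀ x, |f x| ≤ C) (hD : ∀ x, |g x| ≤ D) (x : E n) :
    T n a (fun y => f y + g y) x = T n a f x + T n a g x := by
  unfold T
  have hm : Measurable (fun z : E n => a • x + √(1 - a ^ 2) • z) :=
    (measurable_const_smul _).const_add _
  exact integral_add (Scalar_int (hf.comp hm) (fun z => hC _)) (Scalar_int (hg.comp hm) (fun z => hD _))

theorem integral_eq_zero_of_odd {u : E n → ℝ} (hodd : ∀ x, u (-x) = -u x) :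
    ∫ x, u x ∂(gam n) = 0 := by
  have h1 : ∫ x, u x ∂(gam n) = ∫ x, u (-x) ∂(gam n) := by
    have h := (MeasurableEquiv.neg (E n)).measurableEmbedding.integral_map (μ := gam n) u
    have h2 : (gam n).map (MeasurableEquiv.neg (E n)) = gam n := map_neg n
    rw [h2] at h
    exact h
  simp_rw [hodd] at h1
  rw [integral_neg] at h1
  linarith

theorem scalar {ρ C : ℝ} (h0 : 0 < ρ) (h1 : ρ < 1) {f : E n → ℝ} (hf : Measurable f)
    (hC : ∀ x, |f x| ≤ C) (hm : ∫ x, f x ∂(gam n) = 0) :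
    ∫ x, f x * T n (-ρ) f x ∂(gam n) ≤
      ρ ^ 2 * ∫ x, f x ^ 2 ∂(gam n) -
        (ρ + ρ ^ 2) * ∑ j, (∫ x : E n, f x * x j ∂(gam n)) ^ 2 := by
  obtain ⟨e, he⟩ : ∃ e : E n → ℝ, e = fun x => (f x + f (-x)) / 2 := ⟨_, rfl⟩
  obtain ⟨o, ho⟩ : ∃ o : E n → ℝ, o = fun x => (f x - f (-x)) / 2 := ⟨_, rfl⟩
  have hfn : Measurable (fun x : E n => f (-x)) := hf.comp measurable_neg
  have hme : Measurable e := by rw [he]; exact (hf.add hfn).div_const 2
  have hmo : Measurable o := by rw [ho]; exact (hf.sub hfn).div_const 2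
  have hCe : ∀ x, |e x| ≤ C := by
    intro x
    have h2 := abs_le.mp (hC x)
    have h3 := abs_le.mp (hC (-x))
    rw [he, abs_le]
    constructor
    · show -C ≤ (f x + f (-x)) / 2
      linarith [h2.1, h3.1]
    · show (f x + f (-x)) / 2 ≤ C
      linarith [h2.2, h3.2]
  have hCo : ∀ x, |o x| ≤ C := by
    intro x
    have h2 := abs_le.mp (hC x)
    have h3 := abs_le.mp (hC (-x))
    rw [ho, abs_le]
    constructor
    · show -C ≤ (f x - f (-x)) / 2
      linarith [h2.1, h3.2]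
    · show (f x - f (-x)) / 2 ≤ C
      linarith [h2.2, h3.1]
  have hev : ∀ x, e (-x) = e x := by
    intro x
    rw [he]
    show (f (-x) + f (- -x)) / 2 = (f x + f (-x)) / 2
    rw [neg_neg]; ring
  have hod : ∀ x, o (-x) = -o x := by
    intro x
    rw [ho]
    show (f (-x) - f (- -x)) / 2 = -((f x - f (-x)) / 2)
    rw [neg_neg]; ring
  have hfe : ∀ x, f x = e x + o x := by
    intro x
    rw [he, ho]
    show f x = (f x + f (-x)) / 2 + (f x - f (-x)) / 2
    ring
  have hfe' : f = fun x => e x + o x := funext hfe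
  have hρ2 : ρ ^ 2 ≤ 1 := by nlinarith
  have hTe : ∀ x, T n ρ e (-x) = T n ρ e x := by
    intro x
    rw [← T_comp_neg]
    have h2 : (fun y => e (-y)) = e := funext hev
    rw [h2]
  have hTo : ∀ x, T n ρ o (-x) = -T n ρ o x := by
    intro x
    rw [← T_comp_neg]
    have h2 : (fun y => o (-y)) = fun y => -o y := funext hod
    rw [h2]
    unfold T
    exact integral_neg _
  have hT : ∀ x, T n (-ρ) f x = T n ρ e x - T n ρ o x := by
    intro x
    rw [T_neg]
    conv_lhs => rw [hfe']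
    rw [T_add hme hmo hCe hCo, hTe, hTo]
    ring
  have hmTe : Measurable (T n ρ e) := T_measurable hme
  have hmTo : Measurable (T n ρ o) := T_measurable hmo
  have hbTe : ∀ x, |T n ρ e x| ≤ C := fun x => T_bdd hCe x
  have hbTo : ∀ x, |T n ρ o x| ≤ C := fun x => T_bdd hCo x
  have i1 := Scalar_int_mul hme hmTe hCe hbTe
  have i2 := Scalar_int_mul hmo hmTo hCo hbTo
  have i3 := Scalar_int_mul hmo hmTe hCo hbTe
  have i4 := Scalar_int_mul hme hmTo hCe hbTo
  have hA : ∫ x, f x * T n (-ρ) f x ∂(gam n) =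
      ∫ x, e x * T n ρ e x ∂(gam n) - ∫ x, o x * T n ρ o x ∂(gam n) := by
    have h2 : ∀ x, f x * T n (-ρ) f x =
        (e x * T n ρ e x - o x * T n ρ o x) + (o x * T n ρ e x - e x * T n ρ o x) := by
      intro x
      rw [hT x, hfe x]; ring
    rw [integral_congr_ae (Filter.Eventually.of_forall h2)]
    have i12 : Integrable (fun x => e x * T n ρ e x - o x * T n ρ o x) (gam n) := i1.sub i2
    have i34 : Integrable (fun x => o x * T n ρ e x - e x * T n ρ o x) (gam n) := i3.sub i4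
    rw [integral_add i12 i34, integral_sub i1 i2]
    have h3 : ∫ x, (o x * T n ρ e x - e x * T n ρ o x) ∂(gam n) = 0 := by
      apply integral_eq_zero_of_odd
      intro x
      rw [hod, hev, hTe, hTo]; ring
    rw [h3, add_zero]
  have j1 := Scalar_int_mul hme hme hCe hCe
  have j2 := Scalar_int_mul hmo hmo hCo hCo
  have j3 := Scalar_int_mul hme hmo hCe hCo
  have hB : ∫ x, f x ^ 2 ∂(gam n) = ∫ x, e x ^ 2 ∂(gam n) + ∫ x, o x ^ 2 ∂(gam n) := by
    have h2 : ∀ x, f x ^ 2 = (e x * e x + o x * o x) + 2 * (e x * o x) := by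
      intro x
      rw [hfe x]; ring
    rw [integral_congr_ae (Filter.Eventually.of_forall h2)]
    have j12 : Integrable (fun x => e x * e x + o x * o x) (gam n) := j1.add j2
    rw [integral_add j12 (j3.const_mul 2), integral_add j1 j2]
    have h3 : ∫ x, 2 * (e x * o x) ∂(gam n) = 0 := by
      apply integral_eq_zero_of_odd
      intro x
      rw [hod, hev]; ring
    rw [h3, add_zero]
    simp_rw [sq]
  have hJ : ∀ j : Fin n, ∫ x : E n, f x * x j ∂(gam n) = ∫ x : E n, o x * x j ∂(gam n) := by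
    intro j
    have h2 : ∀ x : E n, f x * x j = e x * x j + o x * x j := by
      intro x
      rw [hfe x]; ring
    rw [integral_congr_ae (Filter.Eventually.of_forall h2)]
    rw [integral_add (Scalar_int_coord hme hCe j) (Scalar_int_coord hmo hCo j)]
    have h3 : ∫ x : E n, e x * x j ∂(gam n) = 0 := by
      apply integral_eq_zero_of_odd
      intro x
      rw [hev]
      have h4 : (-x : E n) j = -(x j) := rfl
      rw [h4]; ring
    rw [h3, zero_add]
  have hE0 : ∫ x, e x ∂(gam n) = 0 := by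
    have h2 : ∫ x, f x ∂(gam n) = ∫ x, e x ∂(gam n) + ∫ x, o x ∂(gam n) := by
      rw [integral_congr_ae (Filter.Eventually.of_forall hfe)]
      exact integral_add (Scalar_int hme hCe) (Scalar_int hmo hCo)
    rw [integral_eq_zero_of_odd hod, add_zero, hm] at h2
    exact h2.symm
  have hgap := gap h0 h1 hme hCe hev hE0
  have hsq : √ρ ^ 2 = ρ := Real.sq_sqrt h0.le
  have hen := T_energy (a := √ρ) (by rw [hsq]; exact h1.le) hmo hCo
  rw [hsq] at hen
  have hb1 := bessel (T_measurable (a := √ρ) hmo) (fun x => T_bdd (a := √ρ) hCo x)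
  have hb2 := bessel hmo hCo
  have hco : ∀ j : Fin n, (∫ x : E n, T n (√ρ) o x * x j ∂(gam n)) ^ 2 =
      ρ * (∫ x : E n, o x * x j ∂(gam n)) ^ 2 := by
    intro j
    rw [T_coord (by rw [hsq]; exact h1.le) hmo hCo j, mul_pow, hsq]
  simp_rw [hco] at hb1
  rw [← Finset.mul_sum] at hb1
  simp_rw [hJ]
  rw [hA, hB]
  have hfin : ρ ^ 2 * ∑ j, (∫ x : E n, o x * x j ∂(gam n)) ^ 2 ≤
      ρ ^ 2 * ∫ x, o x ^ 2 ∂(gam n) := mul_le_mul_of_nonneg_left hb2 (sq_nonneg ρ)
  rw [hen]
  linarith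

end Pool.Agent.Lib.MP_e62723_gt.Asy
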